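import Pool.Agent.PLY.V.Mz
import Pool.Agent.PLY.T2.Defs

/-!
Project PLY (MP_8c6f77_pr, honeycomb lattice, polynomial bound), part S, architect helper40: FROM THE MIRROR GIANTS (`tt`, `T2` of PLY/T2/Defs) TO THE FULL
AVOIDANCE AND THE STRONG FOLDS, for ALL the avoiding pairs (blocks which pass over the end of the other leg included). Used inside the closing loop (with a
function `X` of the scale) and for the final `Sys.Ply` (PLY/Ch/Defs).

* `wf σ i g c`: the free leg `l` up to its first renewal `> i`, the word `s` of class `g` with the FIXED block `c` behind it, full avoidance.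
* `sf1 σ i g m`: part of `sf σ i g m` (PLY/Ch/Defs) where the leg with the giant is one-sided at every proper prefix of the stopped word `l`. This is
  automatic when the leg with the giant is the shorter one (case of the return estimate).
* `ma σ g m`: mass of the pairs (leg `l ++ [c]` on the side `σ`, `c` of height `≥ 2 ^ m`; other leg `s` of class `g`, on the side `!σ`, which is at least
  as high as `l`), full avoidance, `s` one-sided at every prefix of `l`, `s` weighted as a free word.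
* `SIn`: the inputs. `A`: the bounds of PLY/V (`closed`, `mz_le`). `X n`: the mirror giants of the zone `2 ^ n` (`TB κ X t` of T2/Defs is `X n = X * t ^ n`).
* `SOut`: the outputs (F), (W), (S1).

Sides: `σ = true` is leg 1. `av σ X Y`: `X` is the leg on the side `σ`. `Y` is THE LONGER LEG if `h X + d (!σ) ≤ h Y`, and `X` is the longer leg if
`h Y + d σ ≤ h X`; one of the two holds (`dicho`). The prefixes of the longer leg are one-sided (`gp_of`, planarity `pl1`, `pl2`).
-/

namespace Pool.Agent.HEP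

open scoped ENNReal
open Finset

namespace PS

open Sys

variable (S : Sys)

/-- Fixed giant. -/
noncomputable def wf (σ : Bool) (i g : ℕ) (c : S.B) : ℝ≥0∞ :=
  ∑' l, ∑' s, ind (S.av σ l (s ++ [c]) ∧ Nat.size (S.h s) = g) * (S.rg i l * S.w s)

/-- Strong folds, the leg with the giant is one-sided at the proper prefixes of the stopped word. -/
noncomputable def sf1 (σ : Bool) (i g m : ℕ) : ℝ≥0∞ :=
  ∑' l, ∑' s, ∑' c, ind (S.av σ l (s ++ [c]) ∧ (∀ l' c', l = l' ++ [c'] → S.gp (!σ) (s ++ [c]) l') ∧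
    Nat.size (S.h s) = g ∧ 2 ^ m ≤ S.ht c) * (S.rg i l * (S.w s * S.wt c))

/-- The giant is on the free leg. -/
noncomputable def ma (σ : Bool) (g m : ℕ) : ℝ≥0∞ :=
  ∑' l, ∑' c, ∑' s, ind (S.gp (!σ) s l ∧ S.av σ (l ++ [c]) s ∧ S.h l + d (!σ) ≤ S.h s ∧ Nat.size (S.h s) = g ∧
    2 ^ m ≤ S.ht c) * (S.w l * S.wt c * S.w s)

/-- The inputs. -/
structure SIn (K A κ ρ ρ₂ : ℝ≥0∞) (X : ℕ → ℝ≥0∞) : Prop where
  gyp : ∃ K0, S.Gyp K0
  one_le : 1 ≤ A
  rho_lt : ρ < 1
  kap_le : κ ≤ ρ
  rho2_le : ρ₂ ≤ ρ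
  reg : S.Rho K ρ₂
  ta : ∀ g, S.TA g ≤ A
  /-- `mz_le` of PLY/V/Mz, with `y` the largest number such that `2 ^ y ≤ i + 1` -/
  mz : ∀ σ i g y m, g ≤ y → y ≤ m → 2 ^ y ≤ i + 1 → S.U (2 ^ y) * S.mz σ i g y m ≤ A * ρ ^ (m - g)
  mono : Monotone X
  tb : ∀ n m, n ≤ m → S.U (2 ^ n) * S.T2 n m ≤ X n * κ ^ (m - n)

/-- The outputs, with constant `C`. -/
structure SOut (C A ρ : ℝ≥0∞) (X : ℕ → ℝ≥0∞) : Prop where
  /-- full avoidance -/
  full : ∀ i, S.fa i * S.U i ≤ C * (A + X (Nat.size i))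
  /-- fixed giant -/
  wfb : ∀ σ i g m c, 2 ^ g ≤ i + 1 → i + 1 ≤ 2 ^ m → 2 ^ m ≤ S.ht c → wf S σ i g c ≤ C * (A + X (Nat.size i))
  /-- strong folds -/
  s1 : ∀ σ i g m, 2 ^ g ≤ i + 1 → i + 1 ≤ 2 ^ m → S.U i * sf1 S σ i g m ≤ C * (A + X (Nat.size i)) * ρ ^ (m - g)

end PS

end Pool.Agent.HEP
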