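import Pool.Agent.PLY.S.Tls

/-!
Project PLY, part S, module F: FULL AVOIDANCE, `U i * fa i ≤ CF (A + X (size i))`.

PAPER PROOF. `flr σ i` = part of `fa i` where the leg on the side `!σ` is the longer one. `fa_le_flr`: `fa i ≤ flr true i + flr false i` (`dicho true l s`; for
`flr false` exchange the names of the two legs, `av false s l = Av l s`; `ENNReal.tsum_comm`).
(1) `flr_le`: let `1 ≤ j`, `2 ^ j ≤ i + 1`. Write the longer leg as `P ++ [c]`, `h P ≤ i < h P + ht c` (`rg_snoc`), the other leg is `l`, `FP (i + 1) l` (`rg_eq`).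
  * `h P < 2 ^ (j - 1)`: `2 ^ (j - 1) ≤ ht c` (as `i + 1 ≥ 2 ^ j`), class `g = size (h P) ≤ j - 1`. Stop `l` at its first renewal `≥ 2 ^ (j - 1)`, `l = u ++ r` (`rg_anti`): `gp_of` for `u` (still
    shorter than `P ++ [c]`, `h P + d σ ≤ 2 ^ (j - 1) ≤ h u`) gives `gp σ u P`, so all these pairs together are at most `∑ g ∈ range j, tt σ (j - 1) g (j - 1) ≤ T2 (j - 1) (j - 1)`.
  * `2 ^ (j - 1) ≤ h P`: `h P + d σ ≤ i + 1 ≤ h l`; for `u = pre (h P + d σ) l` (`pre_spec`: `FP (h P + d σ) u`, `l = u ++ r`) `gp_of` gives `gp σ u P`. Drop the avoidance, sum over `c`: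
    `Lam (i - h P)`, sum over `l`: `rg_pre` (with `k = h P + d σ`): at most `∑ q ∈ Ico (2 ^ (j - 1)) (i + 1), tqq σ q * Lam (i - q)`.
(2) `U (2 ^ (j - 1)) * T2 (j - 1) (j - 1) ≤ X (j - 1)` (`tb`); `U (2 ^ (j + 1)) ≤ 4 * U (2 ^ (j - 1))` (`U_two` twice, or `U_mul_nat`).
(3) `tqq_sum`: `∑ q ∈ Ico (2 ^ (j - 1)) (2 ^ (j + 1)), tqq σ q ≤ TA j + TA (j + 1) ≤ 2 A` (`size q` is `j` or `j + 1`).
(4) AVERAGE: the numbers `i ∈ Ico (2 ^ j - 1) (2 ^ (j + 1) - 1)` (there are `2 ^ j` of them), `fa (2 ^ (j + 1) - 1) ≤ fa i` (`fa_anti`), and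
  `∑ i, ∑ q ∈ Ico .. (i + 1), tqq σ q * Lam (i - q) ≤ (∑ q, tqq σ q) * ∑ t ∈ range (2 ^ (j + 1) + 1), Lam t`, `U M * ∑ t ∈ range (M + 1), Lam t ≤ 2 M + 1` (`U_mul_sum_Lam`, `M = 2 ^ (j + 1)`).
  Result: `2 ^ j * U (2 ^ (j + 1)) * fa (2 ^ (j + 1) - 1) ≤ 2 * (2 ^ j * 4 * X (j - 1) + 2 A * (2 * 2 ^ (j + 1) + 1))`, so
  `U (2 ^ (j + 1)) * fa (2 ^ (j + 1) - 1) ≤ 8 X (j - 1) + 20 A`.
(5) Arbitrary `i`: if `i + 1 < 4` then `fa i ≤ 1` (`tsum_rg`), `U i ≤ i + 1 ≤ 3` and `1 ≤ A`. Otherwise `2 ^ (j + 1) ≤ i + 1 < 2 ^ (j + 2)` with `j ≥ 1`, `fa i ≤ fa (2 ^ (j + 1) - 1)`,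
  `U i ≤ U (2 * 2 ^ (j + 1)) ≤ 2 * U (2 ^ (j + 1))`, `j - 1 ≤ size i` (`mono`).
-/

namespace Pool.Agent.HEP

open scoped ENNReal
open Finset

namespace PS

open Sys

variable {S : Sys}

/-- Full avoidance, the leg on the side `!σ` is the longer one. -/
noncomputable def flr (S : Sys) (σ : Bool) (i : ℕ) : ℝ≥0∞ :=
  ∑' l, ∑' s, ind (S.av σ l s ∧ S.h l + d (!σ) ≤ S.h s) * (S.rg i l * S.rg i s)

/-- First passage pairs of level `q`. -/
noncomputable def tqq (S : Sys) (σ : Bool) (q : ℕ) : ℝ≥0∞ :=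
  ∑' u, ∑' s, ind (S.gp σ u s ∧ S.FP (S.h s + d σ) u ∧ S.h s = q) * (S.w u * S.w s)

theorem fa_le_flr (i : ℕ) : S.fa i ≤ flr S true i + flr S false i := by
  have h2 : flr S false i = ∑' l, ∑' s, ind (S.Av l s ∧ S.h s + 1 ≤ S.h l) * (S.rg i l * S.rg i s) := by
    unfold flr
    rw [ENNReal.tsum_comm]
    refine tsum_congr fun l => tsum_congr fun s => ?_
    rw [av_false, mul_comm (S.rg i s)]
    rfl
  have h1 : flr S true i = ∑' l, ∑' s, ind (S.Av l s ∧ S.h l ≤ S.h s) * (S.rg i l * S.rg i s) := rfl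
  rw [h1, h2, ← ENNReal.tsum_add]
  unfold fa
  refine ENNReal.tsum_le_tsum fun l => ?_
  rw [← ENNReal.tsum_add]
  refine ENNReal.tsum_le_tsum fun s => ?_
  rw [← add_mul]
  refine mul_le_mul' ?_ le_rfl
  by_cases hA : S.Av l s
  · rcases Nat.lt_or_ge (S.h s) (S.h l) with h3 | h3
    · rw [ind_true hA, ind_true (p := S.Av l s ∧ S.h s + 1 ≤ S.h l) ⟨hA, h3⟩]
      exact le_add_self
    · rw [ind_true hA, ind_true (p := S.Av l s ∧ S.h l ≤ S.h s) ⟨hA, h3⟩]
      exact le_self_add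
  · rw [ind_false hA]
    exact bot_le

theorem flr_le {K0 : ℕ} (hG : S.Gyp K0) (σ : Bool) {i j : ℕ} (hj : 1 ≤ j) (h1 : 2 ^ j ≤ i + 1) :
    flr S σ i ≤ S.T2 (j - 1) (j - 1) + ∑ q ∈ Ico (2 ^ (j - 1)) (i + 1), tqq S σ q * S.Lam (i - q) := by
  set N := 2 ^ (j - 1) with hN
  have hN1 : 1 ≤ N := Nat.one_le_two_pow
  have h2N : 2 ^ j = 2 * N := by
    rw [hN]
    obtain ⟨m, rfl⟩ : ∃ m, j = m + 1 := ⟨j - 1, by omega⟩
    rw [Nat.add_sub_cancel, pow_succ]; ring
  -- the two inner sums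
  set G1 : List S.B → S.B → ℝ≥0∞ := fun P c =>
    ∑' u, ind (S.av σ u (P ++ [c]) ∧ ∀ s' r, P = s' ++ r → S.os σ 1 u s') * S.rg (N - 1) u with hG1
  set G2 : List S.B → ℝ≥0∞ := fun P => ∑' u, ind (S.gp σ u P ∧ S.FP (S.h P + d σ) u) * S.w u with hG2
  have e0 : flr S σ i = ∑' s, (∑' l, ind (S.av σ l s ∧ S.h l + d (!σ) ≤ S.h s) * S.rg i l) * S.rg i s := by
    unfold flr
    rw [ENNReal.tsum_comm]
    refine tsum_congr fun s => ?_
    rw [← ENNReal.tsum_mul_right]
    exact tsum_congr fun l => by ring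
  have hin : ∀ P c, S.h P ≤ i → i < S.h P + S.ht c →
      (∑' l, ind (S.av σ l (P ++ [c]) ∧ S.h l + d (!σ) ≤ S.h (P ++ [c])) * S.rg i l) ≤
        ind (S.h P < N) * G1 P c + ind (N ≤ S.h P) * G2 P := by
    intro P c hP1 hP2
    rcases Nat.lt_or_ge (S.h P) N with h3 | h3
    · rw [ind_true h3, ind_false (p := N ≤ S.h P) (by omega), one_mul, zero_mul, add_zero]
      refine rg_anti S.toAlph (by omega : N - 1 ≤ i) fun u r hu => ind_mono ?_
      rintro ⟨h4, h5⟩
      have h6 : S.av σ u (P ++ [c]) := by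
        have h7 : S.av σ (u ++ r) ((P ++ [c]) ++ []) := by rw [List.append_nil]; exact h4
        exact S.av_pre h7
      have h8 := hu.1
      have hd := d_le σ
      rw [S.h_append] at h5
      exact ⟨h6, (gp_of hG h6 (by omega) (by omega)).2.2⟩
    · rw [ind_true h3, ind_false (p := S.h P < N) (by omega), one_mul, zero_mul, zero_add]
      have hd := d_le σ
      have h4 := rg_pre S.toAlph (show S.h P + d σ ≤ i + 1 by omega) (fun u => ind (S.gp σ u P))
      calc (∑' l, ind (S.av σ l (P ++ [c]) ∧ S.h l + d (!σ) ≤ S.h (P ++ [c])) * S.rg i l)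
          ≤ ∑' l, ind (S.gp σ (S.pre (S.h P + d σ) l) P) * S.rg i l := by
            refine ENNReal.tsum_le_tsum fun l => ?_
            rw [rg_eq S.toAlph]
            by_cases hl : S.FP (i + 1) l
            · refine mul_le_mul' (ind_mono ?_) le_rfl
              rintro ⟨h5, h6⟩
              obtain ⟨h7, r, hr⟩ := S.pre_spec (k := S.h P + d σ) (X := l) (by have := hl.1; omega)
              have h8 : S.av σ (S.pre (S.h P + d σ) l) (P ++ [c]) := by
                have h9 : S.av σ (S.pre (S.h P + d σ) l ++ r) ((P ++ [c]) ++ []) := by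
                  rw [← hr, List.append_nil]; exact h5
                exact S.av_pre h9
              refine gp_of hG h8 ?_ h7.1
              have h10 : S.h l = S.h (S.pre (S.h P + d σ) l) + S.h r := by
                conv_lhs => rw [hr, S.h_append]
              omega
            · rw [ind_false hl, zero_mul, mul_zero, mul_zero]
        _ = ∑' u, ind (S.FP (S.h P + d σ) u) * (ind (S.gp σ u P) * S.w u) := h4
        _ = G2 P := by
            rw [hG2]
            refine tsum_congr fun u => ?_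
            rw [ind_and]
            ring
  have e1 : flr S σ i ≤ (∑' P, ∑' c, ind (S.h P < N ∧ N ≤ S.ht c) * (G1 P c * (S.w P * S.wt c))) +
      ∑' P, ind (N ≤ S.h P ∧ S.h P ≤ i) * (G2 P * (S.w P * S.Lam (i - S.h P))) := by
    rw [e0, rg_snoc S.toAlph]
    rw [← ENNReal.tsum_add]
    refine ENNReal.tsum_le_tsum fun P => ?_
    have e2 : ind (N ≤ S.h P ∧ S.h P ≤ i) * (G2 P * (S.w P * S.Lam (i - S.h P))) =
        ∑' c, ind (N ≤ S.h P) * G2 P * (ind (S.h P ≤ i ∧ i < S.h P + S.ht c) * (S.w P * S.wt c)) := by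
      by_cases h3 : S.h P ≤ i
      · rw [← S.tsum_cross i P h3, ← ENNReal.tsum_mul_left, ← ENNReal.tsum_mul_left, ← ENNReal.tsum_mul_left]
        refine tsum_congr fun c => ?_
        rw [ind_and (N ≤ S.h P), ind_and (S.h P ≤ i)]
        ring
      · rw [ind_false (fun h => h3 h.2), zero_mul]
        symm
        rw [ENNReal.tsum_eq_zero]
        intro c
        rw [ind_false (p := S.h P ≤ i ∧ i < S.h P + S.ht c) (fun h => h3 h.1), zero_mul, mul_zero]
    rw [e2, ← ENNReal.tsum_add]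
    refine ENNReal.tsum_le_tsum fun c => ?_
    by_cases hc : S.h P ≤ i ∧ i < S.h P + S.ht c
    · rw [ind_true hc, one_mul]
      refine (mul_le_mul' (hin P c hc.1 hc.2) le_rfl).trans ?_
      rw [add_mul]
      refine add_le_add ?_ le_rfl
      rw [mul_assoc]
      refine mul_le_mul' (ind_mono fun h3 => ⟨h3, by omega⟩) le_rfl
    · rw [ind_false hc, zero_mul, mul_zero]
      exact bot_le
  refine e1.trans (add_le_add ?_ ?_)
  · have e3 : ∑ r ∈ range (j - 1 + 1), S.tt σ (j - 1) r (j - 1) ≤ S.T2 (j - 1) (j - 1) := by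
      unfold T2
      exact Finset.single_le_sum (f := fun σ => ∑ r ∈ range (j - 1 + 1), S.tt σ (j - 1) r (j - 1)) (fun _ _ => bot_le)
        (Finset.mem_univ σ)
    refine le_trans ?_ e3
    unfold tt
    rw [← hN, ← Summable.tsum_finsetSum (fun _ _ => ENNReal.summable)]
    calc ∑' P, ∑' c, ind (S.h P < N ∧ N ≤ S.ht c) * (G1 P c * (S.w P * S.wt c))
        = ∑' l, ∑' P, ∑' c, ind (S.h P < N ∧ N ≤ S.ht c) * (ind (S.av σ l (P ++ [c]) ∧ ∀ s' r, P = s' ++ r → S.os σ 1 l s') *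
            (S.rg (N - 1) l * (S.w P * S.wt c))) := by
          symm
          rw [ENNReal.tsum_comm]
          refine tsum_congr fun P => ?_
          rw [ENNReal.tsum_comm]
          refine tsum_congr fun c => ?_
          rw [hG1]
          simp only
          rw [← ENNReal.tsum_mul_right, ← ENNReal.tsum_mul_left]
          exact tsum_congr fun l => by ring
      _ ≤ _ := by
          refine ENNReal.tsum_le_tsum fun l => ?_
          rw [← Summable.tsum_finsetSum (fun _ _ => ENNReal.summable)]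
          refine ENNReal.tsum_le_tsum fun P => ?_
          rw [← Summable.tsum_finsetSum (fun _ _ => ENNReal.summable)]
          refine ENNReal.tsum_le_tsum fun c => ?_
          by_cases hP : S.h P < N ∧ N ≤ S.ht c
          · have h3 : Nat.size (S.h P) ≤ j - 1 := Nat.size_le.2 hP.1
            rw [ind_true hP, one_mul]
            refine le_trans ?_ (Finset.single_le_sum (f := fun r => ind (S.av σ l (P ++ [c]) ∧
              (∀ s' u, P = s' ++ u → S.os σ 1 l s') ∧ Nat.size (S.h P) = r ∧ N ≤ S.ht c) * (S.rg (N - 1) l * (S.w P * S.wt c)))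
              (fun _ _ => bot_le) (Finset.mem_range.2 (Nat.lt_succ_of_le h3)))
            exact mul_le_mul' (ind_mono fun h => ⟨h.1, h.2, rfl, hP.2⟩) le_rfl
          · rw [ind_false hP, zero_mul]
            exact bot_le
  · refine le_of_eq ?_
    calc ∑' P, ind (N ≤ S.h P ∧ S.h P ≤ i) * (G2 P * (S.w P * S.Lam (i - S.h P)))
        = ∑' P, ∑ q ∈ Ico N (i + 1), ind (S.h P = q) * (G2 P * (S.w P * S.Lam (i - q))) := by
          refine tsum_congr fun P => ?_
          by_cases hP : N ≤ S.h P ∧ S.h P ≤ i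
          · rw [Finset.sum_eq_single (S.h P), ind_true hP, ind_true rfl]
            · intro q _ hq
              rw [ind_false (fun h => hq h.symm), zero_mul]
            · intro h
              exact absurd (Finset.mem_Ico.2 ⟨hP.1, Nat.lt_succ_of_le hP.2⟩) h
          · rw [ind_false hP, zero_mul]
            symm
            refine Finset.sum_eq_zero fun q hq => ?_
            rw [Finset.mem_Ico] at hq
            rw [ind_false, zero_mul]
            intro h
            exact hP (by omega)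
      _ = ∑ q ∈ Ico N (i + 1), ∑' P, ind (S.h P = q) * (G2 P * (S.w P * S.Lam (i - q))) :=
          Summable.tsum_finsetSum (fun _ _ => ENNReal.summable)
      _ = ∑ q ∈ Ico N (i + 1), tqq S σ q * S.Lam (i - q) := by
          refine Finset.sum_congr rfl fun q _ => ?_
          unfold tqq
          rw [ENNReal.tsum_comm, ← ENNReal.tsum_mul_right]
          refine tsum_congr fun P => ?_
          rw [hG2]
          simp only
          rw [← ENNReal.tsum_mul_right, ← ENNReal.tsum_mul_right, ← ENNReal.tsum_mul_left]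
          refine tsum_congr fun u => ?_
          rw [ind_congr (show (S.gp σ u P ∧ S.FP (S.h P + d σ) u ∧ S.h P = q) ↔ (S.gp σ u P ∧ S.FP (S.h P + d σ) u) ∧ S.h P = q by
            tauto), ind_and (S.gp σ u P ∧ S.FP (S.h P + d σ) u)]
          ring

theorem tqq_sum (σ : Bool) {j : ℕ} (hj : 1 ≤ j) : ∑ q ∈ Ico (2 ^ (j - 1)) (2 ^ (j + 1)), tqq S σ q ≤ S.TA j + S.TA (j + 1) := by
  refine le_trans ?_ (add_le_add (TAs_le σ j) (TAs_le σ (j + 1)))
  unfold TAs tqq
  rw [← ENNReal.tsum_add, ← Summable.tsum_finsetSum (fun _ _ => ENNReal.summable)]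
  refine ENNReal.tsum_le_tsum fun u => ?_
  rw [← ENNReal.tsum_add, ← Summable.tsum_finsetSum (fun _ _ => ENNReal.summable)]
  refine ENNReal.tsum_le_tsum fun s => ?_
  rw [← Finset.sum_mul, ← add_mul]
  refine mul_le_mul' ?_ le_rfl
  by_cases hP : (S.gp σ u s ∧ S.FP (S.h s + d σ) u) ∧ 2 ^ (j - 1) ≤ S.h s ∧ S.h s < 2 ^ (j + 1)
  · obtain ⟨⟨h1, h2⟩, h3, h4⟩ := hP
    rw [Finset.sum_eq_single (S.h s), ind_true ⟨h1, h2, rfl⟩]
    · have h5 : Nat.size (S.h s) = j ∨ Nat.size (S.h s) = j + 1 := by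
        have h6 : Nat.size (S.h s) ≤ j + 1 := Nat.size_le.2 h4
        have h7 : j - 1 < Nat.size (S.h s) := Nat.lt_size.2 h3
        omega
      rcases h5 with h5 | h5
      · rw [ind_true (p := S.gp σ u s ∧ S.FP (S.h s + d σ) u ∧ Nat.size (S.h s) = j) ⟨h1, h2, h5⟩]
        exact le_self_add
      · rw [ind_true (p := S.gp σ u s ∧ S.FP (S.h s + d σ) u ∧ Nat.size (S.h s) = j + 1) ⟨h1, h2, h5⟩]
        exact le_add_self
    · intro q _ hq
      exact ind_false fun h => hq h.2.2.symm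
    · intro h
      exact absurd (Finset.mem_Ico.2 ⟨h3, h4⟩) h
  · rw [Finset.sum_eq_zero]
    · exact bot_le
    intro q hq
    rw [Finset.mem_Ico] at hq
    refine ind_false fun h => hP ⟨⟨h.1, h.2.1⟩, ?_⟩
    have := h.2.2
    omega

theorem avg_le {K A κ ρ ρ₂ : ℝ≥0∞} {X : ℕ → ℝ≥0∞} (h : SIn S K A κ ρ ρ₂ X) {j : ℕ} (hj : 1 ≤ j) :
    S.U (2 ^ (j + 1)) * S.fa (2 ^ (j + 1) - 1) ≤ 20 * (A + X (j - 1)) := by
  obtain ⟨K0, hG⟩ := h.gyp
  set M := 2 ^ j with hM
  have hM1 : 1 ≤ M := Nat.one_le_two_pow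
  have hM2 : 2 ^ (j + 1) = 2 * M := by rw [hM, pow_succ]; ring
  set N := 2 ^ (j - 1) with hN
  have hMN : M = 2 * N := by
    rw [hM, hN]
    obtain ⟨m, rfl⟩ : ∃ m, j = m + 1 := ⟨j - 1, by omega⟩
    rw [Nat.add_sub_cancel, pow_succ]; ring
  set T := S.T2 (j - 1) (j - 1) with hT
  have hTX : S.U (2 ^ (j + 1)) * T ≤ 4 * X (j - 1) := by
    have h1 := h.tb (j - 1) (j - 1) le_rfl
    rw [Nat.sub_self, pow_zero, mul_one] at h1
    have h2 : S.U (2 ^ (j + 1)) ≤ 4 * S.U (2 ^ (j - 1)) := by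
      have e1 : 2 ^ (j + 1) = 4 * 2 ^ (j - 1) := by rw [hM2, hMN]; ring
      rw [e1]
      exact_mod_cast S.U_mul_nat hG.anti 4 (2 ^ (j - 1)) (by norm_num)
    calc S.U (2 ^ (j + 1)) * T ≤ 4 * S.U (2 ^ (j - 1)) * T := mul_le_mul' h2 le_rfl
      _ = 4 * (S.U (2 ^ (j - 1)) * T) := by ring
      _ ≤ 4 * X (j - 1) := mul_le_mul' le_rfl h1
  have h3 : ∀ σ, ∀ i ∈ Ico (M - 1) (2 * M - 1), flr S σ i ≤ T + ∑ q ∈ Ico N (i + 1), tqq S σ q * S.Lam (i - q) := by
    intro σ i hi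
    rw [Finset.mem_Ico] at hi
    exact flr_le hG σ hj (by omega)
  have h4 : ∀ σ, ∑ i ∈ Ico (M - 1) (2 * M - 1), ∑ q ∈ Ico N (i + 1), tqq S σ q * S.Lam (i - q) ≤
      (2 * A) * ∑ t ∈ range (2 * M + 1), S.Lam t := by
    intro σ
    have h5 : ∑ q ∈ Ico N (2 * M), tqq S σ q ≤ 2 * A := by
      have h6 := tqq_sum (S := S) σ hj
      rw [hM2] at h6
      refine h6.trans ((add_le_add (h.ta j) (h.ta (j + 1))).trans (by rw [two_mul]))
    calc ∑ i ∈ Ico (M - 1) (2 * M - 1), ∑ q ∈ Ico N (i + 1), tqq S σ q * S.Lam (i - q)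
        ≤ ∑ i ∈ Ico (M - 1) (2 * M - 1), ∑ q ∈ Ico N (2 * M), tqq S σ q * (if q ≤ i then S.Lam (i - q) else 0) := by
          refine Finset.sum_le_sum fun i hi => ?_
          rw [Finset.mem_Ico] at hi
          have e1 : ∑ q ∈ Ico N (i + 1), tqq S σ q * S.Lam (i - q) =
              ∑ q ∈ Ico N (i + 1), tqq S σ q * (if q ≤ i then S.Lam (i - q) else 0) := by
            refine Finset.sum_congr rfl fun q hq => ?_
            rw [Finset.mem_Ico] at hq
            rw [if_pos (by omega)]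
          rw [e1]
          exact Finset.sum_le_sum_of_subset (Finset.Ico_subset_Ico le_rfl (by omega))
      _ = ∑ q ∈ Ico N (2 * M), tqq S σ q * ∑ i ∈ Ico (M - 1) (2 * M - 1), (if q ≤ i then S.Lam (i - q) else 0) := by
          rw [Finset.sum_comm]
          exact Finset.sum_congr rfl fun q _ => (Finset.mul_sum _ _ _).symm
      _ ≤ ∑ q ∈ Ico N (2 * M), tqq S σ q * ∑ t ∈ range (2 * M + 1), S.Lam t := by
          refine Finset.sum_le_sum fun q _ => mul_le_mul' le_rfl ?_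
          rw [← Finset.sum_filter]
          refine le_trans (le_of_eq ?_) (Finset.sum_le_sum_of_subset
            (s := ((Ico (M - 1) (2 * M - 1)).filter (fun i => q ≤ i)).image fun i => i - q) ?_)
          · rw [Finset.sum_image]
            intro a ha b hb hab
            rw [Finset.mem_coe, Finset.mem_filter] at ha hb
            simp only at hab
            omega
          · intro t ht
            rw [Finset.mem_image] at ht
            obtain ⟨i, hi, rfl⟩ := ht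
            rw [Finset.mem_filter, Finset.mem_Ico] at hi
            rw [Finset.mem_range]
            omega
      _ = (∑ q ∈ Ico N (2 * M), tqq S σ q) * ∑ t ∈ range (2 * M + 1), S.Lam t := by rw [Finset.sum_mul]
      _ ≤ (2 * A) * ∑ t ∈ range (2 * M + 1), S.Lam t := mul_le_mul' h5 le_rfl
  have h7 : (M : ℝ≥0∞) * S.fa (2 * M - 1) ≤ ∑ i ∈ Ico (M - 1) (2 * M - 1), S.fa i := by
    calc (M : ℝ≥0∞) * S.fa (2 * M - 1) = ∑ _i ∈ Ico (M - 1) (2 * M - 1), S.fa (2 * M - 1) := by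
          rw [Finset.sum_const, Nat.card_Ico, nsmul_eq_mul]
          congr 2
          omega
      _ ≤ ∑ i ∈ Ico (M - 1) (2 * M - 1), S.fa i := by
          refine Finset.sum_le_sum fun i hi => ?_
          rw [Finset.mem_Ico] at hi
          exact fa_anti (by omega)
  have h8 : ∑ i ∈ Ico (M - 1) (2 * M - 1), S.fa i ≤ 2 * ((M : ℝ≥0∞) * T + (2 * A) * ∑ t ∈ range (2 * M + 1), S.Lam t) := by
    have h9 : ∀ σ, ∑ i ∈ Ico (M - 1) (2 * M - 1), flr S σ i ≤ (M : ℝ≥0∞) * T + (2 * A) * ∑ t ∈ range (2 * M + 1), S.Lam t := by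
      intro σ
      refine (Finset.sum_le_sum (h3 σ)).trans ?_
      rw [Finset.sum_add_distrib, Finset.sum_const, Nat.card_Ico, nsmul_eq_mul]
      refine add_le_add (mul_le_mul' ?_ le_rfl) (h4 σ)
      exact Nat.cast_le.2 (by omega)
    calc ∑ i ∈ Ico (M - 1) (2 * M - 1), S.fa i ≤ ∑ i ∈ Ico (M - 1) (2 * M - 1), (flr S true i + flr S false i) :=
          Finset.sum_le_sum fun i _ => fa_le_flr i
      _ = _ := Finset.sum_add_distrib
      _ ≤ _ := add_le_add (h9 true) (h9 false)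
      _ = _ := (two_mul _).symm
  have h10 : S.U (2 * M) * ∑ t ∈ range (2 * M + 1), S.Lam t ≤ 2 * ((2 * M : ℕ) : ℝ≥0∞) + 1 :=
    S.U_mul_sum_Lam (2 * M)
  have h11 : (M : ℝ≥0∞) * (S.U (2 * M) * S.fa (2 * M - 1)) ≤ M * (20 * (A + X (j - 1))) := by
    calc (M : ℝ≥0∞) * (S.U (2 * M) * S.fa (2 * M - 1)) = S.U (2 * M) * (M * S.fa (2 * M - 1)) := by ring
      _ ≤ S.U (2 * M) * (2 * ((M : ℝ≥0∞) * T + (2 * A) * ∑ t ∈ range (2 * M + 1), S.Lam t)) :=
          mul_le_mul' le_rfl (h7.trans h8)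
      _ = 2 * (M * (S.U (2 * M) * T) + 2 * A * (S.U (2 * M) * ∑ t ∈ range (2 * M + 1), S.Lam t)) := by ring
      _ ≤ 2 * (M * (4 * X (j - 1)) + 2 * A * (2 * ((2 * M : ℕ) : ℝ≥0∞) + 1)) := by
          rw [hM2] at hTX
          gcongr
      _ ≤ 2 * (M * (4 * X (j - 1)) + 2 * A * (2 * ((2 * M : ℕ) : ℝ≥0∞) + M)) := by
          gcongr
          exact_mod_cast hM1
      _ = M * (8 * X (j - 1) + 20 * A) := by push_cast; ring
      _ ≤ M * (20 * (A + X (j - 1))) := by
          refine mul_le_mul' le_rfl ?_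
          rw [mul_add, add_comm]
          refine add_le_add le_rfl (mul_le_mul' (by norm_num) le_rfl)
  have h12 : (M : ℝ≥0∞) ≠ 0 := by exact_mod_cast (by omega : M ≠ 0)
  have h13 := (ENNReal.mul_le_mul_iff_right h12 (ENNReal.natCast_ne_top M)).1 h11
  rw [hM2]
  exact h13

theorem full_le {K A κ ρ ρ₂ : ℝ≥0∞} {X : ℕ → ℝ≥0∞} (h : SIn S K A κ ρ ρ₂ X) (i : ℕ) :
    S.fa i * S.U i ≤ 40 * (A + X (Nat.size i)) := by
  obtain ⟨K0, hG⟩ := h.gyp
  rcases Nat.lt_or_ge (i + 1) 4 with hi | hi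
  · have h1 : S.fa i ≤ 1 := by
      calc S.fa i ≤ ∑' l, ∑' s, S.rg i l * S.rg i s := by
            unfold fa
            exact ENNReal.tsum_le_tsum fun l => ENNReal.tsum_le_tsum fun s =>
              (mul_le_mul' (ind_le_one _) le_rfl).trans (one_mul _).le
        _ = (∑' l, S.rg i l) * ∑' s, S.rg i s := by
            rw [← ENNReal.tsum_mul_right]
            exact tsum_congr fun l => ENNReal.tsum_mul_left
        _ = 1 := by rw [tsum_rg S.toAlph, one_mul]
    have h2 : S.U i ≤ 40 := by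
      have h4 : S.U i ≤ ((i + 1 : ℕ) : ℝ≥0∞) := by
        unfold Alph.U
        calc ∑ k ∈ Finset.range (i + 1), S.b k ≤ ∑ _k ∈ Finset.range (i + 1), (1 : ℝ≥0∞) :=
              Finset.sum_le_sum fun k _ => S.b_le_one k
          _ = ((i + 1 : ℕ) : ℝ≥0∞) := by rw [Finset.sum_const, Finset.card_range, nsmul_eq_mul, mul_one]
      refine h4.trans ?_
      exact_mod_cast (by omega : i + 1 ≤ 40)
    calc S.fa i * S.U i ≤ 1 * 40 := mul_le_mul' h1 h2
      _ = 40 * 1 := by ring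
      _ ≤ 40 * (A + X (Nat.size i)) := mul_le_mul' le_rfl (h.one_le.trans le_self_add)
  · -- `2 ^ (j + 1) ≤ i + 1 < 2 ^ (j + 2)`
    obtain ⟨j, hj1, hj2, hj3⟩ : ∃ j, 1 ≤ j ∧ 2 ^ (j + 1) ≤ i + 1 ∧ i + 1 < 2 ^ (j + 2) := by
      have h1 : Nat.size (i + 1) ≠ 0 := by
        intro h
        have := Nat.size_eq_zero.1 h
        omega
      have h2 : 2 < Nat.size (i + 1) := Nat.lt_size.2 (by omega)
      refine ⟨Nat.size (i + 1) - 2, by omega, ?_, ?_⟩
      · exact Nat.lt_size.1 (by omega)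
      · have h3 := Nat.lt_size_self (i + 1)
        have e1 : Nat.size (i + 1) - 2 + 2 = Nat.size (i + 1) := by omega
        rwa [e1]
    have h1 := avg_le h hj1
    have h2 : S.fa i ≤ S.fa (2 ^ (j + 1) - 1) := fa_anti (by omega)
    have h3 : S.U i ≤ 2 * S.U (2 ^ (j + 1)) := by
      refine (S.U_mono ?_).trans (S.U_two hG.anti (2 ^ (j + 1)))
      have e1 : 2 ^ (j + 2) = 2 * 2 ^ (j + 1) := by rw [pow_succ]; ring
      omega
    have h4 : X (j - 1) ≤ X (Nat.size i) := by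
      refine h.mono ?_
      have h5 : j - 1 < Nat.size i := by
        refine Nat.lt_size.2 ?_
        have e1 : 2 ^ (j - 1) ≤ 2 ^ j := Nat.pow_le_pow_right (by norm_num) (by omega)
        have e2 : 2 ^ (j + 1) = 2 * 2 ^ j := by rw [pow_succ]; ring
        have e3 : 1 ≤ 2 ^ j := Nat.one_le_two_pow
        omega
      omega
    calc S.fa i * S.U i ≤ S.fa (2 ^ (j + 1) - 1) * (2 * S.U (2 ^ (j + 1))) := mul_le_mul' h2 h3
      _ = 2 * (S.U (2 ^ (j + 1)) * S.fa (2 ^ (j + 1) - 1)) := by ring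
      _ ≤ 2 * (20 * (A + X (j - 1))) := mul_le_mul' le_rfl h1
      _ ≤ 2 * (20 * (A + X (Nat.size i))) := by gcongr
      _ = 40 * (A + X (Nat.size i)) := by ring

end PS

end Pool.Agent.HEP
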