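import Pool.Agent.PLY.S.W

/-!
Project PLY, part S, module Sg: THE STRONG FOLDS (S1), `U i * sf1 σ i g m ≤ CS (A + X (size i)) ρ ^ (m - g)` for `2 ^ g ≤ i + 1 ≤ 2 ^ m`.

PROOF (helper27). `sf1_split`: `sf1 σ i g m ≤ mz σ i g y m + La m * ma σ g m` (`2 ^ y ≤ i + 1`, `La m` = mass of the blocks of height `≥ 2 ^ m`). Let `u` = part of `l` up to its first
renewal over `h s`. If `h u + d (!σ) ≤ h (s ++ [c])` then `gp σ u s` (`gp_of`): a term of `mz`. Otherwise `h (s ++ [c]) + d σ ≤ h u`, so `i < h u`, `u = l`, and `split_a` applies.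
-/

namespace Pool.Agent.HEP

open scoped ENNReal
open Finset

namespace PS

open Sys

variable {S : Sys}

theorem sf1_case {K0 : ℕ} (hG : S.Gyp K0) {σ : Bool} {i g y m : ℕ} (hg : 2 ^ g ≤ i + 1) (hy : 2 ^ y ≤ i + 1) (hm : i + 1 ≤ 2 ^ m)
    {l s : List S.B} {c : S.B} (hl : S.FP (i + 1) l) (hav : S.av σ l (s ++ [c]))
    (h1 : ∀ l' c', l = l' ++ [c'] → S.gp (!σ) (s ++ [c]) l') (hsz : Nat.size (S.h s) = g) (hc : 2 ^ m ≤ S.ht c) :
    S.mzc σ g y m l s c ∨ ∃ l' c', l = l' ++ [c'] ∧ 2 ^ m ≤ S.ht c' ∧ S.h l' + d (!σ) ≤ S.h s ∧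
      S.gp (!σ) s l' ∧ S.av σ (l' ++ [c']) s := by
  have hd := d_add_not σ
  have hd2 := d_le σ
  have hli := hl.1
  have hs := sizeV_lt hsz
  obtain ⟨hv, r, hr⟩ := S.pre_spec (k := S.h s + d σ) (X := l) (by omega)
  set v := S.pre (S.h s + d σ) l with hvd
  have havv : S.av σ v (s ++ [c]) := by
    have h1 : S.av σ (v ++ r) ((s ++ [c]) ++ []) := by rw [List.append_nil, ← hr]; exact hav
    exact S.av_pre h1
  rcases List.eq_nil_or_concat l with h0 | ⟨l', c', h0⟩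
  · subst h0
    rw [S.h_nil] at hli
    omega
  rw [List.concat_eq_append] at h0
  have hgp := h1 l' c' h0
  rcases dicho σ v (s ++ [c]) with h2 | h2
  · left
    refine ⟨gp_of hG (s' := [c]) havv h2 hv.1, hsz, hc, hav, ?_⟩
    intro l1 r1 e hl1
    rcases List.eq_nil_or_concat r1 with h3 | ⟨r2, a, h3⟩
    · subst h3
      rw [List.append_nil] at e
      rw [← e] at hl1
      omega
    · rw [List.concat_eq_append] at h3
      rw [h3, ← List.append_assoc, h0] at e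
      have e2 := (List.append_inj' e rfl).1
      exact hgp.2.2 l1 r2 e2
  · right
    rw [h_snoc] at h2
    have hvl : r = [] := by
      rcases List.eq_nil_or_concat r with h3 | ⟨r2, a, h3⟩
      · exact h3
      · rw [List.concat_eq_append] at h3
        have := hl.2 (v ++ r2) a [] (by rw [hr, h3, List.append_assoc])
        rw [S.h_append] at this
        omega
    rw [hvl, List.append_nil] at hr
    rw [← hr, h0] at h2 hv
    rw [h0] at hav
    have h3 := S.FP_snoc.1 hv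
    refine ⟨l', c', h0, split_a hG hc hav ?_ h3.1⟩
    rw [h_snoc]
    exact h2

theorem sf1_split {K0 : ℕ} (hG : S.Gyp K0) (σ : Bool) {i g y m : ℕ} (hg : 2 ^ g ≤ i + 1) (hy : 2 ^ y ≤ i + 1)
    (hm : i + 1 ≤ 2 ^ m) : sf1 S σ i g m ≤ S.mz σ i g y m + (∑' c, ind (2 ^ m ≤ S.ht c) * S.wt c) * ma S σ g m := by
  have h1 : ∑' l, ∑' s, ∑' c, ind (((∃ l' c', l = l' ++ [c'] ∧ 2 ^ m ≤ S.ht c' ∧ S.h l' + d (!σ) ≤ S.h s ∧
      S.gp (!σ) s l' ∧ S.av σ (l' ++ [c']) s) ∧ Nat.size (S.h s) = g) ∧ 2 ^ m ≤ S.ht c) * (S.rg i l * (S.w s * S.wt c)) ≤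
      (∑' c, ind (2 ^ m ≤ S.ht c) * S.wt c) * ma S σ g m := by
    refine le_trans (le_of_eq ?_) (mul_le_mul' le_rfl (mpart_le σ (i := i) (g := g) (m := m)))
    rw [← ENNReal.tsum_mul_left]
    refine tsum_congr fun l => ?_
    rw [← ENNReal.tsum_mul_left]
    refine tsum_congr fun s => ?_
    rw [← ENNReal.tsum_mul_right]
    refine tsum_congr fun c => ?_
    rw [ind_and]
    ring
  refine le_trans ?_ (add_le_add le_rfl h1)
  unfold sf1 mz
  rw [← ENNReal.tsum_add]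
  refine ENNReal.tsum_le_tsum fun l => ?_
  rw [← ENNReal.tsum_add]
  refine ENNReal.tsum_le_tsum fun s => ?_
  rw [← ENNReal.tsum_add]
  refine ENNReal.tsum_le_tsum fun c => ?_
  rw [← add_mul]
  by_cases hl : S.FP (i + 1) l
  · refine mul_le_mul' ((ind_mono ?_).trans (ind_or_le _ _)) le_rfl
    rintro ⟨h2, h3, h4, h5⟩
    rcases sf1_case hG (g := g) hg hy hm hl h2 h3 h4 h5 with h6 | h6
    · exact Or.inl h6
    · exact Or.inr ⟨⟨h6, h4⟩, h5⟩
  · rw [rg_eq S.toAlph, ind_false hl, zero_mul, zero_mul, mul_zero]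
    exact bot_le

/-- The constant. -/
noncomputable def CS (K : ℝ≥0∞) : ℝ≥0∞ := 2 + 2 * CM K

/-- The dyadic level of the zone. -/
lemma zone_exists (i : ℕ) : ∃ y, 2 ^ y ≤ i + 1 ∧ i ≤ 2 * 2 ^ y := by
  refine ⟨Nat.log 2 (i + 1), Nat.pow_log_le_self 2 (Nat.succ_ne_zero i), ?_⟩
  have h1 := Nat.lt_pow_succ_log_self (b := 2) (by norm_num) (i + 1)
  rw [Nat.succ_eq_add_one, pow_succ] at h1
  omega

lemma pow_le_of_zone {g y i : ℕ} (hg : 2 ^ g ≤ i + 1) (hi : i + 1 < 2 * 2 ^ y) : g ≤ y := by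
  by_contra h
  push Not at h
  have h1 : 2 ^ y * 2 ≤ 2 ^ g := by
    rw [← pow_succ]
    exact Nat.pow_le_pow_right (by norm_num) h
  omega

theorem s1_le {K A κ ρ ρ₂ : ℝ≥0∞} {X : ℕ → ℝ≥0∞} (h : SIn S K A κ ρ ρ₂ X) (σ : Bool) {i g m : ℕ}
    (hg : 2 ^ g ≤ i + 1) (hm : i + 1 ≤ 2 ^ m) :
    S.U i * sf1 S σ i g m ≤ CS K * (A + X (Nat.size i)) * ρ ^ (m - g) := by
  obtain ⟨K0, hG⟩ := h.gyp
  have hgm : g ≤ m := (Nat.pow_le_pow_iff_right (by norm_num)).1 (hg.trans hm)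
  obtain ⟨y, hy1, hy2⟩ : ∃ y, 2 ^ y ≤ i + 1 ∧ i + 1 < 2 * 2 ^ y := by
    refine ⟨Nat.log 2 (i + 1), Nat.pow_log_le_self 2 (Nat.succ_ne_zero i), ?_⟩
    have h1 := Nat.lt_pow_succ_log_self (b := 2) (by norm_num) (i + 1)
    rw [Nat.succ_eq_add_one, pow_succ] at h1
    omega
  have hgy := pow_le_of_zone hg hy2
  have hym : y ≤ m := (Nat.pow_le_pow_iff_right (by norm_num)).1 (hy1.trans hm)
  have hU1 : S.U i ≤ 2 * S.U (2 ^ y) := (S.U_mono (by omega)).trans (S.U_two hG.anti (2 ^ y))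
  have hU2 : S.U i ≤ S.U (2 ^ m) := S.U_mono (by omega)
  have hX : X g ≤ X (Nat.size i) := h.mono (le_size hg)
  set La := ∑' c, ind (2 ^ m ≤ S.ht c) * S.wt c with hLa
  calc S.U i * sf1 S σ i g m ≤ S.U i * (S.mz σ i g y m + La * ma S σ g m) := mul_le_mul' le_rfl (sf1_split hG σ hg hy1 hm)
    _ = S.U i * S.mz σ i g y m + S.U i * La * ma S σ g m := by ring
    _ ≤ 2 * S.U (2 ^ y) * S.mz σ i g y m + S.U (2 ^ m) * La * ma S σ g m := by gcongr
    _ = 2 * (S.U (2 ^ y) * S.mz σ i g y m) + S.U (2 ^ m) * La * ma S σ g m := by ring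
    _ ≤ 2 * (A * ρ ^ (m - g)) + 2 * (CM K * (A + X g) * ρ ^ (m - g)) := by
        refine add_le_add (mul_le_mul' le_rfl (h.mz σ i g y m hgy hym hy1)) (mul_le_mul' (giant_le S.toAlph m) (ma_le h σ hgm))
    _ ≤ 2 * ((A + X (Nat.size i)) * ρ ^ (m - g)) + 2 * (CM K * (A + X (Nat.size i)) * ρ ^ (m - g)) := by
        gcongr
        exact le_self_add
    _ = CS K * (A + X (Nat.size i)) * ρ ^ (m - g) := by unfold CS; ring

end PS

end Pool.Agent.HEP
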