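import Pool.Agent.PLY.S.F
import Pool.Agent.PLY.S.Sg

/-!
Project PLY, part S, module Main: `SIn → SOut`, and `Sys.Ply` at the end (constant `X`, and the mirror giants with decay in the class).

`sf_le`: let `2 ^ g ≤ 2 ^ n ≤ i + 1 ≤ 2 ^ m`. If the leg `s ++ [c]` is the longer one then, `l` stopped at its first renewal `≥ 2 ^ n` (`rg_anti`), the pair belongs to `tt σ n g m`
(`gp_of`); otherwise the free leg is the longer one and the leg with the giant is one-sided at all the proper prefixes of `l` (`gp_of`, side `!σ`), so the pair belongs to `sf1`.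
-/

namespace Pool.Agent.HEP

open scoped ENNReal
open Finset

namespace PS

open Sys

variable {S : Sys}

/-- The constant. -/
noncomputable def CO (K : ℝ≥0∞) : ℝ≥0∞ := 40 + CW K + CS K

theorem CO_ne_top {K : ℝ≥0∞} (hK : K ≠ ⊤) : CO K ≠ ⊤ := by
  unfold CO CW CS CM
  finiteness

theorem out_of_in {K A κ ρ ρ₂ : ℝ≥0∞} {X : ℕ → ℝ≥0∞} (h : SIn S K A κ ρ ρ₂ X) : SOut S (CO K) A ρ X where
  full i := (full_le h i).trans (mul_le_mul' (by unfold CO; rw [add_assoc]; exact le_self_add) le_rfl)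
  wfb σ i g m c hg hm hc := (wf_le h σ hg hm hc).trans (mul_le_mul' (by unfold CO; exact le_add_right le_add_self) le_rfl)
  s1 σ i g m hg hm := (s1_le h σ hg hm).trans (by gcongr; unfold CO; exact le_add_self)

theorem sf_le {K0 : ℕ} (hG : S.Gyp K0) (σ : Bool) {i g n m : ℕ} (hgn : g ≤ n) (hn : 2 ^ n ≤ i + 1) (hm : i + 1 ≤ 2 ^ m) :
    S.sf σ i g m ≤ S.tt σ n g m + sf1 S σ i g m := by
  have hgn' : 2 ^ g ≤ 2 ^ n := Nat.pow_le_pow_right (by norm_num) hgn
  have hn1 : 1 ≤ 2 ^ n := Nat.one_le_two_pow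
  have hd2 := d_le σ
  have hd := d_add_not σ
  have h1 : ∑' l, (∑' s, ∑' c, ind (S.av σ l (s ++ [c]) ∧ S.h l + d (!σ) ≤ S.h (s ++ [c]) ∧ Nat.size (S.h s) = g ∧
      2 ^ m ≤ S.ht c) * (S.w s * S.wt c)) * S.rg i l ≤ S.tt σ n g m := by
    have h2 : S.tt σ n g m = ∑' l, (∑' s, ∑' c, ind (S.av σ l (s ++ [c]) ∧ (∀ s' u, s = s' ++ u → S.os σ 1 l s') ∧
        Nat.size (S.h s) = g ∧ 2 ^ m ≤ S.ht c) * (S.w s * S.wt c)) * S.rg (2 ^ n - 1) l := by
      unfold tt
      refine tsum_congr fun l => ?_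
      rw [← ENNReal.tsum_mul_right]
      refine tsum_congr fun s => ?_
      rw [← ENNReal.tsum_mul_right]
      exact tsum_congr fun c => by ring
    rw [h2]
    refine rg_anti S.toAlph (by omega) fun X r hX => ?_
    refine ENNReal.tsum_le_tsum fun s => ENNReal.tsum_le_tsum fun c => mul_le_mul' (ind_mono fun h => ?_) le_rfl
    obtain ⟨h3, h4, h5, h6⟩ := h
    have h7 := sizeV_lt h5
    have h8 := hX.1
    have h9 : S.av σ X (s ++ [c]) := by
      have h10 : S.av σ (X ++ r) ((s ++ [c]) ++ []) := by rw [List.append_nil]; exact h3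
      exact S.av_pre h10
    rw [S.h_append X r] at h4
    have h11 := gp_of hG (σ := σ) (X := X) (s := s) (s' := [c]) h9 (by omega) (by omega)
    exact ⟨h9, h11.2.2, h5, h6⟩
  refine le_trans ?_ (add_le_add h1 (le_refl (sf1 S σ i g m)))
  unfold sf sf1
  rw [← ENNReal.tsum_add]
  refine ENNReal.tsum_le_tsum fun l => ?_
  rw [← ENNReal.tsum_mul_right, ← ENNReal.tsum_add]
  refine ENNReal.tsum_le_tsum fun s => ?_
  rw [← ENNReal.tsum_mul_right, ← ENNReal.tsum_add]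
  refine ENNReal.tsum_le_tsum fun c => ?_
  by_cases hl : S.FP (i + 1) l
  · calc ind (S.av σ l (s ++ [c]) ∧ Nat.size (S.h s) = g ∧ 2 ^ m ≤ S.ht c) * (S.rg i l * (S.w s * S.wt c))
        ≤ (ind (S.av σ l (s ++ [c]) ∧ S.h l + d (!σ) ≤ S.h (s ++ [c]) ∧ Nat.size (S.h s) = g ∧ 2 ^ m ≤ S.ht c) +
          ind (S.av σ l (s ++ [c]) ∧ (∀ l' c', l = l' ++ [c'] → S.gp (!σ) (s ++ [c]) l') ∧
            Nat.size (S.h s) = g ∧ 2 ^ m ≤ S.ht c)) * (S.rg i l * (S.w s * S.wt c)) := by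
          refine mul_le_mul' ((ind_mono ?_).trans (ind_or_le _ _)) le_rfl
          rintro ⟨h3, h5, h6⟩
          rcases dicho σ l (s ++ [c]) with h7 | h7
          · exact Or.inl ⟨h3, h7, h5, h6⟩
          · refine Or.inr ⟨h3, ?_, h5, h6⟩
            intro l' c' e
            subst e
            have h8 := S.FP_snoc.1 hl
            refine gp_of hG (s' := [c']) (av_not.2 h3) ?_ ?_
            · rw [Bool.not_not]
              exact h7
            · rw [h_snoc]
              omega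
      _ = _ := by ring
  · rw [rg_eq S.toAlph, ind_false hl, zero_mul, zero_mul, mul_zero]
    exact bot_le

/-- **The inputs of the chain step.** -/
theorem ply_of_in {K A κ ρ ρ₂ B Z r : ℝ≥0∞} (h : SIn S K A κ ρ ρ₂ (fun _ => B)) (hr : ρ ≤ r)
    (hZ : ∀ σ g n m, g ≤ n → n ≤ m → S.U (2 ^ n) * S.tt σ n g m ≤ Z * r ^ (m - g)) :
    S.Ply (K + (2 * Z + CO K * (A + B))) r := by
  have hρ : ρ₂ ≤ r := h.rho2_le.trans hr
  refine ⟨h.gyp.choose_spec.anti, ?_, ?_, ?_⟩
  · intro j k hjk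
    refine (h.reg j k hjk).trans ?_
    gcongr
    exact le_self_add
  · intro i
    exact ((out_of_in h).full i).trans (le_add_self.trans le_add_self)
  · intro σ i g m hg hm
    obtain ⟨K0, hG⟩ := h.gyp
    obtain ⟨y, hy1, hy2⟩ : ∃ y, 2 ^ y ≤ i + 1 ∧ i + 1 < 2 * 2 ^ y := by
      refine ⟨Nat.log 2 (i + 1), Nat.pow_log_le_self 2 (Nat.succ_ne_zero i), ?_⟩
      have h1 := Nat.lt_pow_succ_log_self (b := 2) (by norm_num) (i + 1)
      rw [Nat.succ_eq_add_one, pow_succ] at h1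
      omega
    have hgy := pow_le_of_zone hg hy2
    have hym : y ≤ m := (Nat.pow_le_pow_iff_right (by norm_num)).1 (hy1.trans hm)
    have hU1 : S.U i ≤ 2 * S.U (2 ^ y) := (S.U_mono (by omega)).trans (S.U_two hG.anti (2 ^ y))
    calc S.U i * S.sf σ i g m ≤ S.U i * (S.tt σ y g m + sf1 S σ i g m) := mul_le_mul' le_rfl (sf_le hG σ hgy hy1 hm)
      _ = S.U i * S.tt σ y g m + S.U i * sf1 S σ i g m := by ring
      _ ≤ 2 * S.U (2 ^ y) * S.tt σ y g m + CO K * (A + B) * ρ ^ (m - g) :=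
          add_le_add (mul_le_mul' hU1 le_rfl) ((out_of_in h).s1 σ i g m hg hm)
      _ = 2 * (S.U (2 ^ y) * S.tt σ y g m) + CO K * (A + B) * ρ ^ (m - g) := by ring
      _ ≤ 2 * (Z * r ^ (m - g)) + CO K * (A + B) * r ^ (m - g) :=
          add_le_add (mul_le_mul' le_rfl (hZ σ g y m hgy hym)) (mul_le_mul' le_rfl (pow_le_pow_left' hr _))
      _ = (2 * Z + CO K * (A + B)) * r ^ (m - g) := by ring
      _ ≤ (K + (2 * Z + CO K * (A + B))) * r ^ (m - g) := mul_le_mul' le_add_self le_rfl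

end PS

end Pool.Agent.HEP
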