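import Pool.Agent.PLY.S.Tls

/-!
Project PLY, part S, module Mir: the giant on the free leg, `ma σ g m ≤ CM (A + X g) ρ ^ (m - g)`.

PAPER PROOF. Notation of `ma`: leg `l ++ [c]` on the side `σ`, other leg `s` of class `g` (`Nat.size (h s) = g`), `h l + d (!σ) ≤ h s`, so the class
`r = Nat.size (h l)` is `≤ g`. Write `La = ∑' c, ind (2 ^ m ≤ ht c) * wt c`, `U (2 ^ m) * La ≤ 2` (`giant_le`).
(1) `r = g`: drop the avoidance (`ind_mono`), keep `gp (!σ) s l`. For fixed `l`, `tsum_split (h l + d (!σ))` in `s`: `s = u ++ t`, `FP (h l + d (!σ)) u`, `gp (!σ) u l` (`gp_res`),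
  `h t ≤ h s < 2 ^ g` (`size_lt`), so the sum over `t` is at most `U (2 ^ g)` (`tsum_le`: `∑' t, ind (h t ≤ N) * w t = U N`), and
  `∑' l, ∑' u, ind (gp (!σ) u l ∧ FP (h l + d (!σ)) u ∧ size (h l) = g) * (w u * w l)` is `TAs (!σ) g ≤ TA g ≤ A` (`TAs_le`; exchange the sums).
  Total `A * U (2 ^ g) * La ≤ A * K ρ₂ ^ (m - g) * U (2 ^ m) * La ≤ 2 K A ρ ^ (m - g)` (`reg : S.Rho K ρ₂`, `ρ₂ ≤ ρ`).
(2) `r < g` (so `1 ≤ g`). `2 ^ (g - 1) ≤ h s` (`Nat.size`), `h l + d (!σ) ≤ 2 ^ (g - 1)`. `tsum_split (2 ^ (g - 1))` in `s`: `s = u ++ t`, `FP (2 ^ (g - 1) - 1 + 1) u`,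
  `h t ≤ 2 ^ g`; `gp (!σ) u l` (`gp_res`), `av (!σ) u (l ++ [c])` (`av_not`, `av_pre`). So the part `r` is at most
  `tt (!σ) (g - 1) r m * U (2 ^ g)` (`rg_eq`: `rg i u = ind (FP (i + 1) u) * w u`), all the `r < g` together at most `T2 (g - 1) m * U (2 ^ g)` (`range (g - 1 + 1)`), and
  `U (2 ^ g) ≤ 2 * U (2 ^ (g - 1))` (`U_two`), `U (2 ^ (g - 1)) * T2 (g - 1) m ≤ X (g - 1) * κ ^ (m - (g - 1)) ≤ X g * ρ ^ (m - g)` (`tb`, `mono`, `κ ≤ ρ ≤ 1`).
-/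

namespace Pool.Agent.HEP

open scoped ENNReal
open Finset

namespace PS

open Sys

variable {S : Sys}

/-- The constant. -/
noncomputable def CM (K : ℝ≥0∞) : ℝ≥0∞ := 2 * K + 2

/-- The long leg beyond the level `k`: the rest of it costs at most `U (2 ^ g)`. -/
private lemma rest_le {k g : ℕ} {F : List S.B → ℝ≥0∞} {G : List S.B → ℝ≥0∞}
    (h : ∀ u t, S.FP k u → F (u ++ t) ≤ G u * (ind (S.h t ≤ 2 ^ g) * S.w t)) :
    ∑' s, ind (k ≤ S.h s) * F s ≤ (∑' u, ind (S.FP k u) * G u) * S.U (2 ^ g) := by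
  rw [S.tsum_split k F, ← ENNReal.tsum_mul_right]
  refine ENNReal.tsum_le_tsum fun u => ?_
  by_cases hu : S.FP k u
  · rw [ind_true hu, one_mul, one_mul]
    calc ∑' r, F (u ++ r) ≤ ∑' r, G u * (ind (S.h r ≤ 2 ^ g) * S.w r) := ENNReal.tsum_le_tsum fun r => h u r hu
      _ = G u * S.U (2 ^ g) := by rw [ENNReal.tsum_mul_left, S.tsum_le]
  · rw [ind_false hu, zero_mul, zero_mul, zero_mul]

/-- Part with both legs in the class `g`. -/
noncomputable def ma1 (S : Sys) (σ : Bool) (g m : ℕ) : ℝ≥0∞ :=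
  ∑' l, ∑' c, ∑' s, ind (S.gp (!σ) s l ∧ S.h l + d (!σ) ≤ S.h s ∧ Nat.size (S.h s) = g ∧ Nat.size (S.h l) = g ∧
    2 ^ m ≤ S.ht c) * (S.w l * S.wt c * S.w s)

/-- Part with the near part of the leg with the giant in a lower class. -/
noncomputable def ma2 (S : Sys) (σ : Bool) (g m : ℕ) : ℝ≥0∞ :=
  ∑' l, ∑' c, ∑' s, ind (S.gp (!σ) s l ∧ S.av σ (l ++ [c]) s ∧ S.h l + d (!σ) ≤ S.h s ∧ Nat.size (S.h s) = g ∧
    Nat.size (S.h l) < g ∧ 2 ^ m ≤ S.ht c) * (S.w l * S.wt c * S.w s)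

lemma ma_split (σ : Bool) (g m : ℕ) : ma S σ g m ≤ ma1 S σ g m + ma2 S σ g m := by
  unfold ma ma1 ma2
  rw [← ENNReal.tsum_add]
  refine ENNReal.tsum_le_tsum fun l => ?_
  rw [← ENNReal.tsum_add]
  refine ENNReal.tsum_le_tsum fun c => ?_
  rw [← ENNReal.tsum_add]
  refine ENNReal.tsum_le_tsum fun s => ?_
  rw [← add_mul]
  refine mul_le_mul' (le_trans (ind_mono ?_) (ind_or_le _ _)) le_rfl
  rintro ⟨h1, h2, h3, h4, h5⟩
  have h6 : Nat.size (S.h l) ≤ g := by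
    rw [← h4]
    exact Nat.size_le_size (by omega)
  rcases Nat.eq_or_lt_of_le h6 with h7 | h7
  · exact Or.inl ⟨h1, h3, h4, h7, h5⟩
  · exact Or.inr ⟨h1, h2, h3, h4, h7, h5⟩

lemma ma1_le {K0 : ℕ} (hG : S.Gyp K0) (σ : Bool) (g m : ℕ) :
    ma1 S σ g m ≤ S.TAs (!σ) g * S.U (2 ^ g) * ∑' c, ind (2 ^ m ≤ S.ht c) * S.wt c := by
  have h1 : ∀ l : List S.B, ∑' s, ind (S.h l + d (!σ) ≤ S.h s) * (ind (S.gp (!σ) s l ∧ Nat.size (S.h s) = g ∧
      Nat.size (S.h l) = g) * S.w s) ≤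
      (∑' u, ind (S.FP (S.h l + d (!σ)) u) * (ind (S.gp (!σ) u l ∧ Nat.size (S.h l) = g) * S.w u)) * S.U (2 ^ g) := by
    intro l
    refine rest_le fun u t hu => ?_
    by_cases hP : S.gp (!σ) (u ++ t) l ∧ Nat.size (S.h (u ++ t)) = g ∧ Nat.size (S.h l) = g
    · obtain ⟨h2, h3, h4⟩ := hP
      have h5 := sizeV_lt h3
      rw [S.h_append] at h5
      rw [ind_true ⟨h2, h3, h4⟩, ind_true ⟨gp_res hG h2 hu.1, h4⟩, ind_true (by omega : S.h t ≤ 2 ^ g), S.w_append]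
      exact le_of_eq (by ring)
    · rw [ind_false hP, zero_mul]
      exact bot_le
  calc ma1 S σ g m = ∑' l, (S.w l * ∑' s, ind (S.h l + d (!σ) ≤ S.h s) * (ind (S.gp (!σ) s l ∧
        Nat.size (S.h s) = g ∧ Nat.size (S.h l) = g) * S.w s)) * ∑' c, ind (2 ^ m ≤ S.ht c) * S.wt c := by
        unfold ma1
        refine tsum_congr fun l => ?_
        rw [← ENNReal.tsum_mul_left]
        refine tsum_congr fun c => ?_
        rw [← ENNReal.tsum_mul_left, ← ENNReal.tsum_mul_right]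
        refine tsum_congr fun s => ?_
        rw [ind_congr (show (S.gp (!σ) s l ∧ S.h l + d (!σ) ≤ S.h s ∧ Nat.size (S.h s) = g ∧ Nat.size (S.h l) = g ∧
          2 ^ m ≤ S.ht c) ↔ (S.h l + d (!σ) ≤ S.h s ∧ (S.gp (!σ) s l ∧ Nat.size (S.h s) = g ∧ Nat.size (S.h l) = g)) ∧
          2 ^ m ≤ S.ht c by tauto), ind_and, ind_and]
        ring
    _ ≤ ∑' l, (S.w l * ((∑' u, ind (S.FP (S.h l + d (!σ)) u) * (ind (S.gp (!σ) u l ∧ Nat.size (S.h l) = g) *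
        S.w u)) * S.U (2 ^ g))) * ∑' c, ind (2 ^ m ≤ S.ht c) * S.wt c :=
        ENNReal.tsum_le_tsum fun l => mul_le_mul' (mul_le_mul' le_rfl (h1 l)) le_rfl
    _ = (∑' l, ∑' u, ind (S.gp (!σ) u l ∧ S.FP (S.h l + d (!σ)) u ∧ Nat.size (S.h l) = g) * (S.w u * S.w l)) *
        S.U (2 ^ g) * ∑' c, ind (2 ^ m ≤ S.ht c) * S.wt c := by
        rw [ENNReal.tsum_mul_right]
        congr 1
        rw [← ENNReal.tsum_mul_right]
        refine tsum_congr fun l => ?_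
        rw [← mul_assoc, ← ENNReal.tsum_mul_left]
        congr 1
        refine tsum_congr fun u => ?_
        simp only [ind_and]
        ring
    _ = S.TAs (!σ) g * S.U (2 ^ g) * ∑' c, ind (2 ^ m ≤ S.ht c) * S.wt c := by
        rw [ENNReal.tsum_comm]
        rfl

lemma ma2_le {K0 : ℕ} (hG : S.Gyp K0) (σ : Bool) {g m : ℕ} (hg : 1 ≤ g) :
    ma2 S σ g m ≤ S.T2 (g - 1) m * S.U (2 ^ g) := by
  have hp : 1 ≤ 2 ^ (g - 1) := Nat.one_le_two_pow
  have h1 : ∀ (l : List S.B) (c : S.B), ∑' s, ind (2 ^ (g - 1) ≤ S.h s) * (ind (S.gp (!σ) s l ∧ S.av σ (l ++ [c]) s ∧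
      Nat.size (S.h s) = g ∧ Nat.size (S.h l) < g ∧ 2 ^ m ≤ S.ht c) * S.w s) ≤
      (∑' u, ind (S.FP (2 ^ (g - 1)) u) * (ind (S.av (!σ) u (l ++ [c]) ∧ (∀ s' v, l = s' ++ v → S.os (!σ) 1 u s') ∧
        Nat.size (S.h l) < g ∧ 2 ^ m ≤ S.ht c) * S.w u)) * S.U (2 ^ g) := by
    intro l c
    refine rest_le fun u t hu => ?_
    by_cases hP : S.gp (!σ) (u ++ t) l ∧ S.av σ (l ++ [c]) (u ++ t) ∧ Nat.size (S.h (u ++ t)) = g ∧
        Nat.size (S.h l) < g ∧ 2 ^ m ≤ S.ht c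
    · obtain ⟨h2, h3, h4, h5, h6⟩ := hP
      have h7 := sizeV_lt h4
      rw [S.h_append] at h7
      have h8 : S.h l < 2 ^ (g - 1) := Nat.size_le.1 (by omega)
      have h9 : S.h l + d (!σ) ≤ S.h u := by
        have := d_le (!σ)
        have := hu.1
        omega
      have h10 : S.av (!σ) u (l ++ [c]) := by
        rw [av_not]
        have h11 : S.av σ ((l ++ [c]) ++ []) (u ++ t) := by rw [List.append_nil]; exact h3
        exact S.av_pre h11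
      rw [ind_true ⟨h2, h3, h4, h5, h6⟩, ind_true ⟨h10, (gp_res hG h2 h9).2.2, h5, h6⟩,
        ind_true (by omega : S.h t ≤ 2 ^ g), S.w_append]
      exact le_of_eq (by ring)
    · rw [ind_false hP, zero_mul]
      exact bot_le
  have e1 : ma2 S σ g m = ∑' l, ∑' c, S.w l * S.wt c * ∑' s, ind (S.h l + d (!σ) ≤ S.h s) *
      (ind (2 ^ (g - 1) ≤ S.h s) * (ind (S.gp (!σ) s l ∧ S.av σ (l ++ [c]) s ∧
        Nat.size (S.h s) = g ∧ Nat.size (S.h l) < g ∧ 2 ^ m ≤ S.ht c) * S.w s)) := by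
    unfold ma2
    refine tsum_congr fun l => tsum_congr fun c => ?_
    rw [← ENNReal.tsum_mul_left]
    refine tsum_congr fun s => ?_
    by_cases hs : Nat.size (S.h s) = g
    · have h2 := le_of_size hs hg
      rw [ind_true h2, one_mul, ind_congr (show (S.gp (!σ) s l ∧ S.av σ (l ++ [c]) s ∧ S.h l + d (!σ) ≤ S.h s ∧
        Nat.size (S.h s) = g ∧ Nat.size (S.h l) < g ∧ 2 ^ m ≤ S.ht c) ↔ S.h l + d (!σ) ≤ S.h s ∧ (S.gp (!σ) s l ∧
        S.av σ (l ++ [c]) s ∧ Nat.size (S.h s) = g ∧ Nat.size (S.h l) < g ∧ 2 ^ m ≤ S.ht c) by tauto), ind_and]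
      ring
    · rw [ind_false (show ¬ (S.gp (!σ) s l ∧ S.av σ (l ++ [c]) s ∧ S.h l + d (!σ) ≤ S.h s ∧ Nat.size (S.h s) = g ∧
        Nat.size (S.h l) < g ∧ 2 ^ m ≤ S.ht c) by tauto), ind_false (show ¬ (S.gp (!σ) s l ∧ S.av σ (l ++ [c]) s ∧
        Nat.size (S.h s) = g ∧ Nat.size (S.h l) < g ∧ 2 ^ m ≤ S.ht c) by tauto)]
      ring
  calc ma2 S σ g m ≤ ∑' l, ∑' c, S.w l * S.wt c * ((∑' u, ind (S.FP (2 ^ (g - 1)) u) *
        (ind (S.av (!σ) u (l ++ [c]) ∧ (∀ s' v, l = s' ++ v → S.os (!σ) 1 u s') ∧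
        Nat.size (S.h l) < g ∧ 2 ^ m ≤ S.ht c) * S.w u)) * S.U (2 ^ g)) := by
        rw [e1]
        refine ENNReal.tsum_le_tsum fun l => ENNReal.tsum_le_tsum fun c => mul_le_mul' le_rfl (le_trans ?_ (h1 l c))
        exact ENNReal.tsum_le_tsum fun s => by
          calc _ ≤ 1 * _ := mul_le_mul' (ind_le_one _) le_rfl
            _ = _ := one_mul _
    _ = (∑' u, ∑' l, ∑' c, ind (S.av (!σ) u (l ++ [c]) ∧ (∀ s' v, l = s' ++ v → S.os (!σ) 1 u s') ∧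
        Nat.size (S.h l) < g ∧ 2 ^ m ≤ S.ht c) * (S.rg (2 ^ (g - 1) - 1) u * (S.w l * S.wt c))) * S.U (2 ^ g) := by
        rw [← ENNReal.tsum_mul_right]
        have e2 : ∀ l : List S.B, ∑' c, S.w l * S.wt c * ((∑' u, ind (S.FP (2 ^ (g - 1)) u) *
            (ind (S.av (!σ) u (l ++ [c]) ∧ (∀ s' v, l = s' ++ v → S.os (!σ) 1 u s') ∧
            Nat.size (S.h l) < g ∧ 2 ^ m ≤ S.ht c) * S.w u)) * S.U (2 ^ g)) = ∑' c, ∑' u,
            ind (S.av (!σ) u (l ++ [c]) ∧ (∀ s' v, l = s' ++ v → S.os (!σ) 1 u s') ∧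
            Nat.size (S.h l) < g ∧ 2 ^ m ≤ S.ht c) * (S.rg (2 ^ (g - 1) - 1) u * (S.w l * S.wt c)) * S.U (2 ^ g) := by
          intro l
          refine tsum_congr fun c => ?_
          rw [← mul_assoc, ← ENNReal.tsum_mul_left, ← ENNReal.tsum_mul_right]
          refine tsum_congr fun u => ?_
          rw [rg_eq, show 2 ^ (g - 1) - 1 + 1 = 2 ^ (g - 1) by omega]
          ring
        simp only [e2]
        calc ∑' l, ∑' c, ∑' u, ind (S.av (!σ) u (l ++ [c]) ∧ (∀ s' v, l = s' ++ v → S.os (!σ) 1 u s') ∧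
            Nat.size (S.h l) < g ∧ 2 ^ m ≤ S.ht c) * (S.rg (2 ^ (g - 1) - 1) u * (S.w l * S.wt c)) * S.U (2 ^ g)
            = ∑' l, ∑' u, ∑' c, ind (S.av (!σ) u (l ++ [c]) ∧ (∀ s' v, l = s' ++ v → S.os (!σ) 1 u s') ∧
            Nat.size (S.h l) < g ∧ 2 ^ m ≤ S.ht c) * (S.rg (2 ^ (g - 1) - 1) u * (S.w l * S.wt c)) * S.U (2 ^ g) :=
              tsum_congr fun l => ENNReal.tsum_comm
          _ = ∑' u, ∑' l, ∑' c, ind (S.av (!σ) u (l ++ [c]) ∧ (∀ s' v, l = s' ++ v → S.os (!σ) 1 u s') ∧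
            Nat.size (S.h l) < g ∧ 2 ^ m ≤ S.ht c) * (S.rg (2 ^ (g - 1) - 1) u * (S.w l * S.wt c)) * S.U (2 ^ g) :=
              ENNReal.tsum_comm
          _ = _ := by
              refine tsum_congr fun u => ?_
              rw [← ENNReal.tsum_mul_right]
              refine tsum_congr fun l => ?_
              rw [← ENNReal.tsum_mul_right]
    _ ≤ (∑ r ∈ range g, S.tt (!σ) (g - 1) r m) * S.U (2 ^ g) := by
        refine mul_le_mul' ?_ le_rfl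
        unfold tt
        rw [← Summable.tsum_finsetSum (fun _ _ => ENNReal.summable)]
        refine ENNReal.tsum_le_tsum fun u => ?_
        rw [← Summable.tsum_finsetSum (fun _ _ => ENNReal.summable)]
        refine ENNReal.tsum_le_tsum fun l => ?_
        rw [← Summable.tsum_finsetSum (fun _ _ => ENNReal.summable)]
        refine ENNReal.tsum_le_tsum fun c => ?_
        by_cases hP : S.av (!σ) u (l ++ [c]) ∧ (∀ s' v, l = s' ++ v → S.os (!σ) 1 u s') ∧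
            Nat.size (S.h l) < g ∧ 2 ^ m ≤ S.ht c
        · obtain ⟨h2, h3, h4, h5⟩ := hP
          refine le_trans (le_of_eq ?_) (Finset.single_le_sum (f := fun r => ind (S.av (!σ) u (l ++ [c]) ∧
            (∀ s' v, l = s' ++ v → S.os (!σ) 1 u s') ∧ Nat.size (S.h l) = r ∧ 2 ^ m ≤ S.ht c) *
            (S.rg (2 ^ (g - 1) - 1) u * (S.w l * S.wt c))) (fun _ _ => bot_le) (Finset.mem_range.2 h4))
          rw [ind_true ⟨h2, h3, h4, h5⟩, ind_true ⟨h2, h3, rfl, h5⟩]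
        · rw [ind_false hP, zero_mul]
          exact bot_le
    _ ≤ S.T2 (g - 1) m * S.U (2 ^ g) := by
        refine mul_le_mul' ?_ le_rfl
        unfold T2
        rw [Fintype.sum_bool, show g - 1 + 1 = g by omega]
        cases σ
        · exact le_self_add
        · exact le_add_self

theorem ma_le {K A κ ρ ρ₂ : ℝ≥0∞} {X : ℕ → ℝ≥0∞} (h : SIn S K A κ ρ ρ₂ X) (σ : Bool) {g m : ℕ}
    (hgm : g ≤ m) : ma S σ g m ≤ CM K * (A + X g) * ρ ^ (m - g) := by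
  obtain ⟨K0, hG⟩ := h.gyp
  have hρ1 : ρ ≤ 1 := h.rho_lt.le
  have h1 : ma1 S σ g m ≤ 2 * K * A * ρ ^ (m - g) := by
    calc ma1 S σ g m ≤ S.TAs (!σ) g * S.U (2 ^ g) * ∑' c, ind (2 ^ m ≤ S.ht c) * S.wt c := ma1_le hG σ g m
      _ ≤ A * (K * ρ₂ ^ (m - g) * S.U (2 ^ m)) * ∑' c, ind (2 ^ m ≤ S.ht c) * S.wt c :=
          mul_le_mul' (mul_le_mul' ((TAs_le _ g).trans (h.ta g)) (h.reg g m hgm)) le_rfl
      _ = A * K * ρ₂ ^ (m - g) * (S.U (2 ^ m) * ∑' c, ind (2 ^ m ≤ S.ht c) * S.wt c) := by ring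
      _ ≤ A * K * ρ ^ (m - g) * 2 :=
          mul_le_mul' (mul_le_mul' le_rfl (pow_le_pow_left' h.rho2_le _)) (giant_le S.toAlph m)
      _ = 2 * K * A * ρ ^ (m - g) := by ring
  have h2 : ma2 S σ g m ≤ 2 * X g * ρ ^ (m - g) := by
    rcases Nat.eq_zero_or_pos g with hg | hg
    · subst hg
      have : ma2 S σ 0 m = 0 := by
        unfold ma2
        rw [ENNReal.tsum_eq_zero]
        intro l
        rw [ENNReal.tsum_eq_zero]
        intro c
        rw [ENNReal.tsum_eq_zero]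
        intro s
        rw [ind_false (fun h => absurd h.2.2.2.2.1 (Nat.not_lt_zero _)), zero_mul]
      rw [this]
      exact bot_le
    · have e1 : 2 ^ g = 2 * 2 ^ (g - 1) := by
        rw [← pow_succ']
        congr 1
        omega
      calc ma2 S σ g m ≤ S.T2 (g - 1) m * S.U (2 ^ g) := ma2_le hG σ hg
        _ ≤ S.T2 (g - 1) m * (2 * S.U (2 ^ (g - 1))) := by
            rw [e1]
            exact mul_le_mul' le_rfl (S.U_two hG.anti _)
        _ = 2 * (S.U (2 ^ (g - 1)) * S.T2 (g - 1) m) := by ring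
        _ ≤ 2 * (X (g - 1) * κ ^ (m - (g - 1))) := mul_le_mul' le_rfl (h.tb (g - 1) m (by omega))
        _ ≤ 2 * (X g * ρ ^ (m - g)) := by
            refine mul_le_mul' le_rfl (mul_le_mul' (h.mono (by omega)) ?_)
            exact (pow_le_pow_left' h.kap_le _).trans (pow_le_pow_right_of_le_one' hρ1 (by omega))
        _ = 2 * X g * ρ ^ (m - g) := by ring
  calc ma S σ g m ≤ 2 * K * A * ρ ^ (m - g) + 2 * X g * ρ ^ (m - g) := (ma_split σ g m).trans (add_le_add h1 h2)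
    _ ≤ (2 * K * A * ρ ^ (m - g) + 2 * X g * ρ ^ (m - g)) + (2 * K * X g * ρ ^ (m - g) + 2 * A * ρ ^ (m - g)) :=
        le_self_add
    _ = CM K * (A + X g) * ρ ^ (m - g) := by unfold CM; ring

end PS

end Pool.Agent.HEP
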