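import Pool.Agent.PLY.S.Defs

/-!
Project PLY, part S, module Tls: tools. Everything is in the namespace `Pool.Agent.HEP.PS` (alphabet and system explicit where they are not determined).

* `rg_eq`: `rg i l = ind (FP (i + 1) l) * w l`. `rg_pre`, `rg_anti`, `rg_snoc`: the stopped words.
* `dicho`, `gp_of`: the longer leg, planarity. `gp_res`: the long leg may be shortened.
* `fa_anti`, `sf1_anti`: monotonicity in the stopping level.
* `giant_le`: the mass of the giants.
-/

namespace Pool.Agent.HEP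

open scoped ENNReal
open Finset

namespace PS

open Sys

variable (A : Alph)

theorem rg_eq (i : ℕ) (l : List A.B) : A.rg i l = ind (A.FP (i + 1) l) * A.w l := by
  unfold Alph.rg
  rw [ind_congr Alph.FR_iff]

/-- Stopped words, function of an earlier prefix. -/
theorem rg_pre {k i : ℕ} (hk : k ≤ i + 1) (F : List A.B → ℝ≥0∞) :
    ∑' X, F (A.pre k X) * A.rg i X = ∑' l, ind (A.FP k l) * (F l * A.w l) := by
  rw [← A.tsum_pre hk F]
  refine tsum_congr fun X => ?_
  rw [rg_eq A]; ring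

/-- The earlier prefix does not see the rest. -/
theorem pre_append {k : ℕ} {X : List A.B} (h : k ≤ A.h X) (r : List A.B) : A.pre k (X ++ r) = A.pre k X := by
  obtain ⟨h1, t, ht⟩ := A.pre_spec h
  conv_lhs => rw [ht, List.append_assoc]
  rw [A.pre_app h1]

/-- Monotonicity in the stopping level. -/
theorem rg_anti {i i' : ℕ} (hi : i ≤ i') {F G : List A.B → ℝ≥0∞} (hFG : ∀ X r, A.FP (i + 1) X → F (X ++ r) ≤ G X) :
    ∑' X, F X * A.rg i' X ≤ ∑' X, G X * A.rg i X := by
  calc ∑' X, F X * A.rg i' X ≤ ∑' X, G (A.pre (i + 1) X) * A.rg i' X := by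
        refine ENNReal.tsum_le_tsum fun X => ?_
        rw [rg_eq A]
        by_cases hX : A.FP (i' + 1) X
        · obtain ⟨h1, r, hr⟩ := A.pre_spec (k := i + 1) (X := X) (by have := hX.1; omega)
          refine mul_le_mul' ?_ le_rfl
          conv_lhs => rw [hr]
          exact hFG _ r h1
        · rw [ind_false hX, zero_mul, mul_zero, mul_zero]
    _ = ∑' X, G X * A.rg i X := by
        rw [rg_pre A (by omega)]
        refine tsum_congr fun X => ?_
        rw [rg_eq A]; ring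

theorem tsum_rg (i : ℕ) : ∑' X, A.rg i X = 1 := by
  rw [← A.tsum_FP (i + 1)]
  exact tsum_congr fun X => rg_eq A i X

/-- Stopped words, decomposed at the last renewal `≤ i`. -/
theorem rg_snoc (i : ℕ) (F : List A.B → ℝ≥0∞) :
    ∑' X, F X * A.rg i X = ∑' l, ∑' c, F (l ++ [c]) * (ind (A.h l ≤ i ∧ i < A.h l + A.ht c) * (A.w l * A.wt c)) := by
  rw [Alph.tsum_snoc, rg_eq A, ind_false (fun h => absurd (A.FP_nil.1 h) (by omega)), zero_mul, mul_zero, zero_add]
  refine tsum_congr fun l => tsum_congr fun c => ?_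
  rw [rg_eq A, ind_congr (show A.FP (i + 1) (l ++ [c]) ↔ A.h l ≤ i ∧ i < A.h l + A.ht c by rw [A.FP_snoc]; omega), A.w_append,
    A.w_cons, A.w_nil, mul_one]

/-- The giants. -/
theorem giant_le (m : ℕ) : A.U (2 ^ m) * ∑' c, ind (2 ^ m ≤ A.ht c) * A.wt c ≤ 2 := by
  have h0 : 1 ≤ 2 ^ m := Nat.one_le_two_pow
  have h1 : ∑' c, ind (2 ^ m ≤ A.ht c) * A.wt c = A.Lam (2 ^ m - 1) := by
    unfold Alph.Lam
    refine tsum_congr fun c => ?_
    rw [ind_congr (show 2 ^ m ≤ A.ht c ↔ 2 ^ m - 1 < A.ht c by omega)]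
  rw [h1]
  obtain ⟨n, hn⟩ : ∃ n, 2 ^ m = n + 1 := ⟨2 ^ m - 1, by omega⟩
  rw [hn, Nat.add_sub_cancel]
  calc A.U (n + 1) * A.Lam n ≤ (A.U n + 1) * A.Lam n := mul_le_mul' (A.U_succ_le n) le_rfl
    _ = A.U n * A.Lam n + A.Lam n := by ring
    _ ≤ 1 + 1 := add_le_add (A.U_mul_Lam n) (A.Lam_le_one n)
    _ = 2 := by norm_num

variable {S : Sys}

lemma d_not (σ : Bool) : d (!σ) = 1 - d σ := by
  cases σ <;> rfl

lemma av_not {σ : Bool} {X Y : List S.B} : S.av (!σ) Y X ↔ S.av σ X Y := by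
  cases σ <;> rfl

/-- One of the two legs is the longer one. -/
theorem dicho (σ : Bool) (X Y : List S.B) : S.h X + d (!σ) ≤ S.h Y ∨ S.h Y + d σ ≤ S.h X := by
  have := d_add_not σ
  omega

/-- Planarity: the prefixes of the longer leg are one-sided. -/
theorem gp_of {K : ℕ} (hG : S.Gyp K) {σ : Bool} {X s s' : List S.B} (hav : S.av σ X (s ++ s'))
    (hl : S.h X + d (!σ) ≤ S.h (s ++ s')) (hs : S.h s + d σ ≤ S.h X) : S.gp σ X s := by
  refine ⟨?_, by omega, ?_⟩
  · have h1 : S.av σ (X ++ []) (s ++ s') := by rw [List.append_nil]; exact hav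
    exact S.av_pre h1
  · intro t r e
    subst e
    rw [List.append_assoc] at hav hl
    rw [S.h_append] at hs
    cases σ
    · simp only [Bool.not_false, d_true, d_false] at hl hs
      exact hG.pl2 X t (r ++ s') hav (by omega) (by omega)
    · simp only [Bool.not_true, d_true, d_false] at hl hs
      exact hG.pl1 X t (r ++ s') hav (by omega) (by omega)

theorem fa_anti {i i' : ℕ} (hi : i ≤ i') : S.fa i' ≤ S.fa i := by
  have h1 : ∀ j, S.fa j = ∑' l, (∑' s, ind (S.Av l s) * S.rg j s) * S.rg j l := by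
    intro j
    unfold fa
    refine tsum_congr fun l => ?_
    rw [← ENNReal.tsum_mul_right]
    exact tsum_congr fun s => by ring
  rw [h1, h1]
  refine rg_anti S.toAlph hi fun X r _ => ?_
  refine rg_anti S.toAlph hi fun Y r' _ => ?_
  exact ind_mono fun h => S.Av_pre _ _ _ _ h

theorem sf_anti {σ : Bool} {i i' g m : ℕ} (hi : i ≤ i') : S.sf σ i' g m ≤ S.sf σ i g m := by
  have h1 : ∀ j, S.sf σ j g m = ∑' l, (∑' s, ∑' c, ind (S.av σ l (s ++ [c]) ∧ Nat.size (S.h s) = g ∧ 2 ^ m ≤ S.ht c) *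
      (S.w s * S.wt c)) * S.rg j l := by
    intro j
    unfold sf
    refine tsum_congr fun l => ?_
    rw [← ENNReal.tsum_mul_right]
    refine tsum_congr fun s => ?_
    rw [← ENNReal.tsum_mul_right]
    exact tsum_congr fun c => by ring
  rw [h1, h1]
  refine rg_anti S.toAlph hi fun X r _ => ?_
  refine ENNReal.tsum_le_tsum fun s => ENNReal.tsum_le_tsum fun c => mul_le_mul' (ind_mono fun h => ⟨?_, h.2⟩) le_rfl
  have h2 : S.av σ (X ++ r) ((s ++ [c]) ++ []) := by rw [List.append_nil]; exact h.1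
  exact S.av_pre h2

theorem sf1_anti {σ : Bool} {i i' g m : ℕ} (hi : i ≤ i') : sf1 S σ i' g m ≤ sf1 S σ i g m := by
  have h1 : ∀ j, sf1 S σ j g m = ∑' l, (∑' s, ∑' c, ind (S.av σ l (s ++ [c]) ∧ (∀ l' c', l = l' ++ [c'] →
      S.gp (!σ) (s ++ [c]) l') ∧ Nat.size (S.h s) = g ∧ 2 ^ m ≤ S.ht c) * (S.w s * S.wt c)) * S.rg j l := by
    intro j
    unfold sf1
    refine tsum_congr fun l => ?_
    rw [← ENNReal.tsum_mul_right]
    refine tsum_congr fun s => ?_
    rw [← ENNReal.tsum_mul_right]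
    exact tsum_congr fun c => by ring
  rw [h1, h1]
  refine rg_anti S.toAlph hi fun X r hX => ?_
  refine ENNReal.tsum_le_tsum fun s => ENNReal.tsum_le_tsum fun c => mul_le_mul' (ind_mono fun h => ?_) le_rfl
  obtain ⟨h2, h3, h4, h5⟩ := h
  have h9 : S.av σ (X ++ r) ((s ++ [c]) ++ []) := by rw [List.append_nil]; exact h2
  refine ⟨S.av_pre h9, fun l' c' e => ?_, h4, h5⟩
  subst e
  rcases List.eq_nil_or_concat r with h0 | ⟨r', a, h0⟩
  · subst h0
    exact h3 l' c' (by rw [List.append_nil])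
  · rw [List.concat_eq_append] at h0
    subst h0
    refine gp_pre (t := [c'] ++ r') ?_
    exact h3 _ a (by simp only [List.append_assoc])

/-- The long leg may be shortened. -/
theorem gp_res {K : ℕ} (hG : S.Gyp K) {σ : Bool} {X r s : List S.B} (h : S.gp σ (X ++ r) s) (hs : S.h s + d σ ≤ S.h X) :
    S.gp σ X s := by
  obtain ⟨h1, h2, h3⟩ := h
  have h4 : S.av σ (X ++ r) (s ++ []) := by rw [List.append_nil]; exact h1
  refine ⟨S.av_pre h4, by omega, ?_⟩
  intro t u e
  subst e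
  rw [S.h_append] at hs h2
  have h5 : S.av σ ((X ++ r) ++ []) (t ++ u) := by rw [List.append_nil]; exact h1
  exact (hG.res σ 1 X r t ⟨S.av_pre h5, by omega, h3 t u rfl⟩ (by omega)).2.2

end PS

end Pool.Agent.HEP
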