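import Pool.Agent.PLY.S.Mir

/-!
Project PLY, part S, module W: A FIXED GIANT, `wf σ i g c ≤ CW (A + X (size i))` for `2 ^ g ≤ i + 1 ≤ 2 ^ m ≤ ht c`.

PROOF. `l` the leg on the side `σ` up to its first renewal `> i`, `s ++ [c]` the other leg, `v = pre (h s + d σ) l`. `split`: either `gp σ v s`, or `l = l' ++ [c']` with
`2 ^ m ≤ ht c'`, `h l' + d (!σ) ≤ h s` and `gp (!σ) s l'`. Indeed if the leg `s ++ [c]` is the longer one then `gp_of` applies to `v`. Otherwise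
`h (s ++ [c]) + d σ ≤ h l`; let `c'` be the last block of `l`; if `h s + d σ ≤ h l'` then `v` is a prefix of `l'`, `h v ≤ i`, and `gp_of` applies (`v` is shorter than `s ++ [c]`); if
`h l' < h s + d σ` then `ht c' > ht c` and `gp_of` applies to the side `!σ`. The first kind has mass at most `TAs σ g ≤ A` (`rg_pre`), the second kind at most `ma σ g m`.
-/

namespace Pool.Agent.HEP

open scoped ENNReal
open Finset

namespace PS

open Sys

variable {S : Sys}

/-- The free leg is the longer one and its last block passes over `h s`. -/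
theorem split_a {K0 : ℕ} (hG : S.Gyp K0) {σ : Bool} {m : ℕ} {l' s : List S.B} {c' c : S.B} (hc : 2 ^ m ≤ S.ht c)
    (hav : S.av σ (l' ++ [c']) (s ++ [c])) (hl : S.h (s ++ [c]) + d σ ≤ S.h (l' ++ [c'])) (hs : S.h l' < S.h s + d σ) :
    2 ^ m ≤ S.ht c' ∧ S.h l' + d (!σ) ≤ S.h s ∧ S.gp (!σ) s l' ∧ S.av σ (l' ++ [c']) s := by
  have hd := d_add_not σ
  rw [h_snoc, h_snoc] at hl
  have h1 : S.av σ ((l' ++ [c']) ++ []) (s ++ [c]) := by rw [List.append_nil]; exact hav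
  have h2 := S.av_pre h1
  refine ⟨by omega, by omega, ?_, h2⟩
  refine gp_of hG (s' := [c']) (av_not.2 h2) ?_ (by omega)
  rw [h_snoc, Bool.not_not]
  omega

/-- The dichotomy of the strong folds. -/
theorem split {K0 : ℕ} (hG : S.Gyp K0) {σ : Bool} {i m : ℕ} {l s : List S.B} {c : S.B} (hl : S.FP (i + 1) l)
    (hs : S.h s ≤ i) (hm : i + 1 ≤ 2 ^ m) (hc : 2 ^ m ≤ S.ht c) (hav : S.av σ l (s ++ [c])) :
    S.gp σ (S.pre (S.h s + d σ) l) s ∨ ∃ l' c', l = l' ++ [c'] ∧ 2 ^ m ≤ S.ht c' ∧ S.h l' + d (!σ) ≤ S.h s ∧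
      S.gp (!σ) s l' ∧ S.av σ (l' ++ [c']) s := by
  have hd := d_add_not σ
  have hd2 := d_le σ
  have hli := hl.1
  obtain ⟨hv, r, hr⟩ := S.pre_spec (k := S.h s + d σ) (X := l) (by omega)
  set v := S.pre (S.h s + d σ) l with hvd
  have havv : S.av σ v (s ++ [c]) := by
    have h1 : S.av σ (v ++ r) ((s ++ [c]) ++ []) := by rw [List.append_nil, ← hr]; exact hav
    exact S.av_pre h1
  have hvl : S.h v ≤ S.h l := by
    have := congrArg S.h hr
    rw [S.h_append] at this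
    omega
  rcases dicho σ l (s ++ [c]) with h1 | h1
  · left
    exact gp_of hG (s' := [c]) havv (by omega) hv.1
  · rcases List.eq_nil_or_concat l with h0 | ⟨l', c', h0⟩
    · subst h0
      rw [S.h_nil] at hli
      omega
    rw [List.concat_eq_append] at h0
    by_cases h2 : S.h s + d σ ≤ S.h l'
    · left
      have h3 : v = S.pre (S.h s + d σ) l' := by
        rw [hvd, h0, pre_append S.toAlph h2]
      have h4 : S.h v ≤ S.h l' := by
        obtain ⟨-, t, ht⟩ := S.pre_spec h2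
        have := congrArg S.h ht
        rw [S.h_append, ← h3] at this
        omega
      have h5 : S.h l' ≤ i := by
        have := S.FP_snoc.1 (h0 ▸ hl)
        omega
      refine gp_of hG (s' := [c]) havv ?_ hv.1
      rw [h_snoc]
      omega
    · right
      rw [h0] at hav h1
      exact ⟨l', c', h0, split_a hG hc hav h1 (by omega)⟩

/-- The one-sided mirror pairs, the word `l` stopped. -/
theorem gpart_le (σ : Bool) {i g : ℕ} (hg : 2 ^ g ≤ i + 1) :
    ∑' l, ∑' s, ind (S.gp σ (S.pre (S.h s + d σ) l) s ∧ Nat.size (S.h s) = g) * (S.rg i l * S.w s) ≤ S.TAs σ g := by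
  rw [ENNReal.tsum_comm]
  unfold TAs
  rw [ENNReal.tsum_comm (f := fun l s => ind (S.gp σ l s ∧ S.FP (S.h s + d σ) l ∧ Nat.size (S.h s) = g) * (S.w l * S.w s))]
  refine ENNReal.tsum_le_tsum fun s => ?_
  by_cases hs : Nat.size (S.h s) = g
  · have h1 := sizeV_lt hs
    have h2 := d_le σ
    calc ∑' l, ind (S.gp σ (S.pre (S.h s + d σ) l) s ∧ Nat.size (S.h s) = g) * (S.rg i l * S.w s)
        = (∑' l, ind (S.gp σ (S.pre (S.h s + d σ) l) s) * S.rg i l) * S.w s := by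
          rw [← ENNReal.tsum_mul_right]
          refine tsum_congr fun l => ?_
          rw [ind_congr (show (S.gp σ (S.pre (S.h s + d σ) l) s ∧ Nat.size (S.h s) = g) ↔
            S.gp σ (S.pre (S.h s + d σ) l) s from ⟨fun h => h.1, fun h => ⟨h, hs⟩⟩)]
          ring
      _ = (∑' l, ind (S.FP (S.h s + d σ) l) * (ind (S.gp σ l s) * S.w l)) * S.w s := by
          rw [rg_pre S.toAlph (k := S.h s + d σ) (i := i) (by omega) fun l => ind (S.gp σ l s)]
      _ = ∑' l, ind (S.gp σ l s ∧ S.FP (S.h s + d σ) l ∧ Nat.size (S.h s) = g) * (S.w l * S.w s) := by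
          rw [← ENNReal.tsum_mul_right]
          refine tsum_congr fun l => ?_
          rw [ind_congr (show (S.gp σ l s ∧ S.FP (S.h s + d σ) l ∧ Nat.size (S.h s) = g) ↔
            (S.FP (S.h s + d σ) l ∧ S.gp σ l s) from ⟨fun h => ⟨h.2.1, h.1⟩, fun h => ⟨h.2, h.1, hs⟩⟩),
            ind_and (S.FP (S.h s + d σ) l) (S.gp σ l s)]
          ring
      _ ≤ _ := le_rfl
  · refine le_trans (le_of_eq ?_) bot_le
    rw [ENNReal.tsum_eq_zero.2]
    · rfl
    · intro l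
      rw [ind_false fun h => hs h.2, zero_mul]

/-- The giants on the free leg. -/
theorem mpart_le (σ : Bool) {i g m : ℕ} :
    ∑' l, ∑' s, ind ((∃ l' c', l = l' ++ [c'] ∧ 2 ^ m ≤ S.ht c' ∧ S.h l' + d (!σ) ≤ S.h s ∧
      S.gp (!σ) s l' ∧ S.av σ (l' ++ [c']) s) ∧ Nat.size (S.h s) = g) * (S.rg i l * S.w s) ≤ ma S σ g m := by
  rw [Alph.tsum_snoc]
  have h0 : ∑' s, ind ((∃ l' c', ([] : List S.B) = l' ++ [c'] ∧ 2 ^ m ≤ S.ht c' ∧ S.h l' + d (!σ) ≤ S.h s ∧
      S.gp (!σ) s l' ∧ S.av σ (l' ++ [c']) s) ∧ Nat.size (S.h s) = g) * (S.rg i [] * S.w s) = 0 := by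
    rw [ENNReal.tsum_eq_zero]
    intro s
    rw [ind_false, zero_mul]
    rintro ⟨⟨l', c', e, -⟩, -⟩
    simp at e
  rw [h0, zero_add]
  unfold ma
  refine ENNReal.tsum_le_tsum fun l => ENNReal.tsum_le_tsum fun c => ENNReal.tsum_le_tsum fun s => ?_
  refine mul_le_mul' (ind_mono ?_) (mul_le_mul' ?_ le_rfl)
  · rintro ⟨⟨l', c', e, h1, h2, h3, h4⟩, h5⟩
    obtain ⟨e1, e2⟩ := List.append_inj' e rfl
    subst e1
    rw [List.cons.injEq] at e2
    obtain ⟨e2, -⟩ := e2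
    subst e2
    exact ⟨h3, h4, h2, h5, h1⟩
  · rw [rg_eq S.toAlph, S.w_append, S.w_cons, S.w_nil, mul_one]
    exact (mul_le_mul' (ind_le_one _) le_rfl).trans (le_of_eq (one_mul _))

/-- The constant. -/
noncomputable def CW (K : ℝ≥0∞) : ℝ≥0∞ := 1 + CM K

lemma TAs_le_A {K A κ ρ ρ₂ : ℝ≥0∞} {X : ℕ → ℝ≥0∞} (h : SIn S K A κ ρ ρ₂ X) (σ : Bool) (g : ℕ) : S.TAs σ g ≤ A :=
  (TAs_le σ g).trans (h.ta g)

lemma le_size {g i : ℕ} (hg : 2 ^ g ≤ i + 1) : g ≤ Nat.size i := by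
  by_contra h
  push Not at h
  have h1 := Nat.lt_size_self i
  have h2 : 2 ^ Nat.size i * 2 ≤ 2 ^ g := by
    rw [← pow_succ]
    exact Nat.pow_le_pow_right (by norm_num) h
  have h3 : 1 ≤ 2 ^ Nat.size i := Nat.one_le_two_pow
  omega

theorem wf_le {K A κ ρ ρ₂ : ℝ≥0∞} {X : ℕ → ℝ≥0∞} (h : SIn S K A κ ρ ρ₂ X) (σ : Bool) {i g m : ℕ} {c : S.B}
    (hg : 2 ^ g ≤ i + 1) (hm : i + 1 ≤ 2 ^ m) (hc : 2 ^ m ≤ S.ht c) : wf S σ i g c ≤ CW K * (A + X (Nat.size i)) := by
  obtain ⟨K0, hG⟩ := h.gyp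
  have hgm : g ≤ m := (Nat.pow_le_pow_iff_right (by norm_num)).1 (hg.trans hm)
  have h1 : wf S σ i g c ≤ S.TAs σ g + ma S σ g m := by
    refine le_trans ?_ (add_le_add (gpart_le σ hg) (mpart_le σ (i := i)))
    unfold wf
    rw [← ENNReal.tsum_add]
    refine ENNReal.tsum_le_tsum fun l => ?_
    rw [← ENNReal.tsum_add]
    refine ENNReal.tsum_le_tsum fun s => ?_
    rw [← add_mul]
    by_cases hl : S.FP (i + 1) l
    · refine mul_le_mul' ((ind_mono ?_).trans (ind_or_le _ _)) le_rfl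
      rintro ⟨h2, h3⟩
      have h4 := sizeV_lt h3
      rcases split hG hl (by omega) hm hc h2 with h5 | h5
      · exact Or.inl ⟨h5, h3⟩
      · exact Or.inr ⟨h5, h3⟩
    · rw [rg_eq S.toAlph, ind_false hl, zero_mul, zero_mul, mul_zero]
      exact bot_le
  have hX : X g ≤ X (Nat.size i) := h.mono (le_size hg)
  calc wf S σ i g c ≤ A + CM K * (A + X g) * ρ ^ (m - g) := h1.trans (add_le_add (TAs_le_A h σ g) (ma_le h σ hgm))
    _ ≤ (A + X (Nat.size i)) + CM K * (A + X (Nat.size i)) * 1 := by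
        gcongr
        · exact le_self_add
        · exact pow_le_one' h.rho_lt.le _
    _ = CW K * (A + X (Nat.size i)) := by unfold CW; ring

end PS

end Pool.Agent.HEP
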